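import Pool.Agent.H71.NU.Dens

set_option autoImplicit false
set_option linter.unusedSectionVars false

/-!
# From products of characters to bounded functions
-/

namespace Pool.Agent.H71.NU

open Filter Topology MeasureTheory
open Pool.Agent.H71.WW (av avr av_add av_mul av_sub av_norm avr_mul avr_mono avr_const BM Bd
  prod_update exists_D compare Cv Cv_closed Cv_closed' SingleGood)

noncomputable section

section filt

variable {Z : Type} [MeasurableSpace Z] {m : ℕ}

/-- convergence of the multiple averages at the points of a filter -/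
def CL (𝓕 : Filter Z) (g : Fin m → ℤ → Z → Z) (F : Fin m → Z → ℂ) : Prop :=
  ∀ᶠ z in 𝓕, ∃ L, Tendsto (fun N => av N fun n => ∏ j, F j (g j n z)) atTop (𝓝 L)

variable {𝓕 : Filter Z} {g : Fin m → ℤ → Z → Z} {F : Fin m → Z → ℂ} {j : Fin m}

theorem CL_add {f f' : Z → ℂ} (hf : CL 𝓕 g (Function.update F j f))
    (hg : CL 𝓕 g (Function.update F j f')) : CL 𝓕 g (Function.update F j (f + f')) := by
  filter_upwards [hf, hg] with x hx hx'
  obtain ⟨L, hL⟩ := hx
  obtain ⟨L', hL'⟩ := hx'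
  refine ⟨L + L', (hL.add hL').congr fun N => ?_⟩
  rw [← av_add]
  congr 1
  funext n
  rw [prod_update, prod_update, prod_update, Pi.add_apply, add_mul]

theorem CL_smul {f : Z → ℂ} (c : ℂ) (hf : CL 𝓕 g (Function.update F j f)) :
    CL 𝓕 g (Function.update F j (c • f)) := by
  filter_upwards [hf] with x hx
  obtain ⟨L, hL⟩ := hx
  refine ⟨c * L, (hL.const_mul c).congr fun N => ?_⟩
  rw [← av_mul]
  congr 1
  funext n
  rw [prod_update, prod_update, Pi.smul_apply, smul_eq_mul, mul_assoc]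

theorem CL_zero : CL 𝓕 g (Function.update F j (0 : Z → ℂ)) := by
  refine Eventually.of_forall fun x => ⟨0, ?_⟩
  refine Tendsto.congr (fun N => ?_) (tendsto_const_nhds (x := (0 : ℂ)))
  rw [av]
  simp [prod_update]

/-- from oscillations to convergence -/
theorem CL_of_bad [CountableInterFilter 𝓕]
    (hbad : ∀ δ : ℝ, 0 < δ → ∀ᶠ x in 𝓕, ∃ N₀ : ℕ, ∀ N, N₀ ≤ N → ∀ M, N₀ ≤ M →
      ‖av N (fun n => ∏ j, F j (g j n x)) - av M (fun n => ∏ j, F j (g j n x))‖ ≤ δ) :
    CL 𝓕 g F := by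
  have hall := eventually_countable_forall.mpr fun i : ℕ => hbad (1 / ((i : ℝ) + 1)) (by positivity)
  filter_upwards [hall] with x hx
  apply cauchySeq_tendsto_of_complete
  rw [Metric.cauchySeq_iff']
  intro ε hε
  obtain ⟨i, hi⟩ := exists_nat_one_div_lt hε
  obtain ⟨N₀, hN₀⟩ := hx i
  refine ⟨N₀, fun n hn => ?_⟩
  rw [dist_eq_norm]
  exact (hN₀ n hn N₀ le_rfl).trans_lt hi

/-- uniform limits -/
theorem CL_closed_sup [CountableInterFilter 𝓕] (hF : ∀ l, Bd (F l)) {f : Z → ℂ}
    (h : ∀ ε : ℝ, 0 < ε → ∃ f' : Z → ℂ, (∀ x, ‖f x - f' x‖ ≤ ε) ∧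
      CL 𝓕 g (Function.update F j f')) :
    CL 𝓕 g (Function.update F j f) := by
  obtain ⟨D, hD0, hD⟩ := exists_D (g := g) hF j
  apply CL_of_bad
  intro δ hδ
  obtain ⟨f', hff, hcv⟩ := h (δ / (4 * D)) (by positivity)
  filter_upwards [hcv] with x hx
  obtain ⟨L, hL⟩ := hx
  obtain ⟨N₀, hN₀⟩ := Metric.tendsto_atTop.mp hL (δ / 4) (by positivity)
  have hclose : ∀ N, ‖av N (fun n => ∏ l, (Function.update F j f) l (g l n x)) -
      av N (fun n => ∏ l, (Function.update F j f') l (g l n x))‖ ≤ δ / 4 := by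
    intro N
    refine (compare hD f f' N x).trans ?_
    calc D * avr N (fun n => ‖f (g j n x) - f' (g j n x)‖) ≤ D * (δ / (4 * D)) := by
          apply mul_le_mul_of_nonneg_left _ hD0.le
          exact (avr_mono fun n => hff _).trans (avr_const _ _).le
      _ = δ / 4 := by field_simp
  refine ⟨N₀, fun N hN M hM => ?_⟩
  have a1 := hclose N
  have a2 := hclose M
  have a3 := hN₀ N hN
  have a4 := hN₀ M hM
  rw [dist_eq_norm] at a3 a4
  set u := av N (fun n => ∏ l, (Function.update F j f) l (g l n x))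
  set u' := av N (fun n => ∏ l, (Function.update F j f') l (g l n x))
  set w := av M (fun n => ∏ l, (Function.update F j f) l (g l n x))
  set w' := av M (fun n => ∏ l, (Function.update F j f') l (g l n x))
  have e1 : u - w = (u - u') + (u' - L) - (w' - L) - (w - w') := by ring
  rw [e1]
  have b1 := norm_sub_le ((u - u') + (u' - L) - (w' - L)) (w - w')
  have b2 := norm_sub_le ((u - u') + (u' - L)) (w' - L)
  have b3 := norm_add_le (u - u') (u' - L)
  linarith

/-- replacing the functions slot by slot -/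
theorem ext_slots {P : (Fin m → Z → ℂ) → Prop} {𝒬 : Set (Z → ℂ)} {𝒜 : Fin m → Set (Z → ℂ)}
    (step : ∀ f : Fin m → Z → ℂ, (∀ j, f j ∈ 𝒬 ∪ 𝒜 j) → ∀ k,
      (∀ e ∈ 𝒬, P (Function.update f k e)) → ∀ h ∈ 𝒜 k, P (Function.update f k h))
    (base : ∀ f : Fin m → Z → ℂ, (∀ j, f j ∈ 𝒬) → P f) {f : Fin m → Z → ℂ}
    (hf : ∀ j, f j ∈ 𝒜 j) : P f := by
  classical
  have key : ∀ (B : Finset (Fin m)) (f : Fin m → Z → ℂ), (∀ j ∈ B, f j ∈ 𝒜 j) →
      (∀ j ∉ B, f j ∈ 𝒬) → P f := by
    intro B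
    induction B using Finset.induction_on with
    | empty => exact fun f _ h => base f fun j => h j (Finset.notMem_empty j)
    | insert k B hk ih =>
      intro f h1 h2
      have h3 := step f (fun j => by
        by_cases hj : j ∈ insert k B
        · exact Or.inr (h1 j hj)
        · exact Or.inl (h2 j hj)) k (fun e he => by
          apply ih
          · intro l hl
            have hlk : l ≠ k := fun h => hk (h ▸ hl)
            rw [Function.update_of_ne hlk]
            exact h1 l (Finset.mem_insert_of_mem hl)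
          · intro l hl
            by_cases hlk : l = k
            · subst hlk
              rw [Function.update_self]
              exact he
            · rw [Function.update_of_ne hlk]
              apply h2
              rw [Finset.mem_insert]
              tauto) (f k) (h1 k (Finset.mem_insert_self k B))
      rwa [Function.update_eq_self] at h3
  exact key Finset.univ f (fun j _ => hf j) fun j hj => absurd (Finset.mem_univ j) hj

end filt

section sp

variable {X Y : Type} [CommGroup X] [TopologicalSpace X] [MeasurableSpace X] [MeasurableSpace Y]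

/-- finite sums of products `h(y) u(x)` -/
def Sp (Y X : Type) [TopologicalSpace X] [MeasurableSpace Y] : Submodule ℂ (Y × X → ℂ) :=
  Submodule.span ℂ {f | ∃ (h : Y → ℂ) (u : X → ℂ), BM h ∧ Continuous u ∧
    f = fun z => h z.1 * u z.2}

/-- products `h(y) χ(x)` -/
def Qc (Y X : Type) [CommGroup X] [TopologicalSpace X] [MeasurableSpace Y] :
    Set (Y × X → ℂ) :=
  {f | ∃ (h : Y → ℂ) (χ : X →ₜ* Circle), BM h ∧ f = fun z => h z.1 * (χ z.2 : ℂ)}

theorem BM_add {Z : Type} [MeasurableSpace Z] {f g : Z → ℂ} (hf : BM f) (hg : BM g) :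
    BM (f + g) := by
  obtain ⟨h1, c, hc⟩ := hf
  obtain ⟨h2, d, hd⟩ := hg
  exact ⟨h1.add h2, c + d, fun x => (norm_add_le _ _).trans (add_le_add (hc x) (hd x))⟩

theorem BM_smul {Z : Type} [MeasurableSpace Z] (c : ℂ) {f : Z → ℂ} (hf : BM f) :
    BM (c • f) := by
  obtain ⟨h1, d, hd⟩ := hf
  refine ⟨h1.const_smul c, ‖c‖ * d, fun x => ?_⟩
  rw [Pi.smul_apply, norm_smul]
  exact mul_le_mul_of_nonneg_left (hd x) (norm_nonneg _)

theorem BM_tens {h : Y → ℂ} {u : X → ℂ} (hh : BM h) (hu : BM u) :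
    BM (fun z : Y × X => h z.1 * u z.2) := by
  obtain ⟨h1, c, hc⟩ := hh
  obtain ⟨h2, d, hd⟩ := hu
  refine ⟨(h1.comp measurable_fst).mul (h2.comp measurable_snd), |c| * |d|, fun z => ?_⟩
  rw [norm_mul]
  exact mul_le_mul ((hc _).trans (le_abs_self _)) ((hd _).trans (le_abs_self _)) (norm_nonneg _)
    (abs_nonneg _)

variable [CompactSpace X] [BorelSpace X] [IsTopologicalGroup X] [T2Space X]

theorem BM_cont {u : X → ℂ} (hu : Continuous u) : BM u :=
  ⟨hu.measurable, ‖(⟨u, hu⟩ : C(X, ℂ))‖, fun x =>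
    ContinuousMap.norm_coe_le_norm (⟨u, hu⟩ : C(X, ℂ)) x⟩

theorem chr_cont (χ : X →ₜ* Circle) : Continuous fun x => (χ x : ℂ) :=
  continuous_subtype_val.comp χ.continuous_toFun

theorem BM_Sp {f : Y × X → ℂ} (hf : f ∈ Sp Y X) : BM f := by
  refine Submodule.span_induction (p := fun f _ => BM f) ?_ ?_ ?_ ?_ hf
  · rintro _ ⟨h, u, hh, hu, rfl⟩
    exact BM_tens hh (BM_cont hu)
  · exact ⟨measurable_const, 0, fun x => by simp⟩
  · rintro f g _ _ hf hg
    exact BM_add hf hg
  · rintro c f _ hf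
    exact BM_smul c hf

theorem Qc_Sp {f : Y × X → ℂ} (hf : f ∈ Qc Y X) : f ∈ Sp Y X := by
  obtain ⟨h, χ, hh, rfl⟩ := hf
  exact Submodule.subset_span ⟨h, _, hh, chr_cont χ, rfl⟩

variable {m : ℕ} {g : Fin m → ℤ → Y × X → Y × X}

/-- the step for sums of products -/
theorem step_Sp {𝓕 : Filter (Y × X)} [CountableInterFilter 𝓕] {F : Fin m → Y × X → ℂ}
    (hF : ∀ j, Bd (F j)) {k : Fin m}
    (hQ : ∀ e ∈ Qc Y X, CL 𝓕 g (Function.update F k e)) {f : Y × X → ℂ}
    (hf : f ∈ Sp Y X) : CL 𝓕 g (Function.update F k f) := by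
  have hTP : ∀ h : Y → ℂ, BM h → ∀ p ∈ TP X,
      CL 𝓕 g (Function.update F k (fun z => h z.1 * p z.2)) := by
    intro h hh p hp
    refine Submodule.span_induction (p := fun (p : X → ℂ) _ => CL 𝓕 g
      (Function.update F k (fun z : Y × X => h z.1 * p z.2))) ?_ ?_ ?_ ?_ hp
    · rintro _ ⟨χ, rfl⟩
      exact hQ _ ⟨h, χ, hh, rfl⟩
    · have e : (fun z : Y × X => h z.1 * (0 : X → ℂ) z.2) = 0 := by
        funext z
        simp
      rw [e]
      exact CL_zero
    · rintro p q _ _ c1 c2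
      have h3 := CL_add c1 c2
      have e : ((fun z : Y × X => h z.1 * p z.2) + fun z : Y × X => h z.1 * q z.2) =
          fun z : Y × X => h z.1 * (p + q) z.2 := by
        funext z
        simp only [Pi.add_apply]
        ring
      rwa [e] at h3
    · rintro c p _ c1
      have h3 := CL_smul c c1
      have e : (c • fun z : Y × X => h z.1 * p z.2) = fun z : Y × X => h z.1 * (c • p) z.2 := by
        funext z
        simp only [Pi.smul_apply, smul_eq_mul]
        ring
      rwa [e] at h3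
  refine Submodule.span_induction (p := fun (f : Y × X → ℂ) _ => CL 𝓕 g
      (Function.update F k f)) ?_ CL_zero ?_ ?_ hf
  · rintro _ ⟨h, u, hh, hu, rfl⟩
    refine CL_closed_sup hF fun ε hε => ?_
    obtain ⟨_, c, hc⟩ := id hh
    obtain ⟨p, hp, hpc, hup⟩ := TP_dense (⟨u, hu⟩ : C(X, ℂ))
      (show 0 < ε / (|c| + 1) by positivity)
    refine ⟨fun z => h z.1 * p z.2, fun z => ?_, hTP h hh p hp⟩
    rw [← mul_sub, norm_mul]
    have h1 : ‖h z.1‖ ≤ |c| + 1 := ((hc _).trans (le_abs_self _)).trans (by linarith)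
    have h2 : ‖u z.2 - p z.2‖ ≤ ε / (|c| + 1) := hup z.2
    calc ‖h z.1‖ * ‖u z.2 - p z.2‖ ≤ (|c| + 1) * (ε / (|c| + 1)) :=
          mul_le_mul h1 h2 (norm_nonneg _) (by positivity)
      _ = ε := by field_simp
  · rintro p q _ _ c1 c2
    exact CL_add c1 c2
  · rintro c p _ c1
    exact CL_smul c c1

/-- sums of products in all slots -/
theorem all_Sp {𝓕 : Filter (Y × X)} [CountableInterFilter 𝓕]
    (h : ∀ F : Fin m → Y × X → ℂ, (∀ j, F j ∈ Qc Y X) → CL 𝓕 g F)
    {F : Fin m → Y × X → ℂ} (hF : ∀ j, F j ∈ Sp Y X) : CL 𝓕 g F := by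
  refine ext_slots (P := CL 𝓕 g) (𝒬 := Qc Y X) (𝒜 := fun _ => (Sp Y X : Set _)) ?_ h hF
  intro f hf k hQ e he
  refine step_Sp (fun j => ?_) hQ he
  rcases hf j with h1 | h1
  · exact (BM_Sp (Qc_Sp h1)).2
  · exact (BM_Sp h1).2

variable {μ : Measure X} [μ.IsHaarMeasure] [IsProbabilityMeasure μ] {ν : Measure Y}
  [IsProbabilityMeasure ν]

variable (μ ν) in
/-- fibrewise Riemann integrable functions -/
def FR (f : Y × X → ℂ) : Prop := ∀ ε : ℝ, 0 < ε → ∃ (F : Y × X → ℂ) (K : Y × X → ℝ),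
  F ∈ Sp Y X ∧ (fun z => (K z : ℂ)) ∈ Sp Y X ∧ (∀ᵐ z ∂(ν.prod μ), ‖f z - F z‖ ≤ K z) ∧
    ∫ z, K z ∂(ν.prod μ) ≤ ε

theorem ind_BM {Z : Type} [MeasurableSpace Z] {s : Set Z} (hs : MeasurableSet s) (c : ℂ) :
    BM (s.indicator fun _ => c) := by
  refine ⟨measurable_const.indicator hs, ‖c‖, fun x => ?_⟩
  by_cases hx : x ∈ s
  · rw [Set.indicator_of_mem hx]
  · rw [Set.indicator_of_notMem hx, norm_zero]
    exact norm_nonneg _

theorem BM.int {Z : Type} [MeasurableSpace Z] {P : Measure Z} [IsFiniteMeasure P] {f : Z → ℂ}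
    (hf : BM f) : Integrable f P := by
  obtain ⟨h1, C, hC⟩ := hf
  exact Integrable.of_bound h1.aestronglyMeasurable C (Eventually.of_forall hC)

/-- sums of products are dense in `L¹` -/
theorem Sp_dense {f : Y × X → ℂ} (hf : BM f) {ε : ℝ} (hε : 0 < ε) :
    ∃ p ∈ Sp Y X, ∫ z, ‖f z - p z‖ ∂(ν.prod μ) ≤ ε := by
  -- the class of approximable functions
  set 𝒞 : Set (Y × X → ℂ) := {f | BM f ∧ ∀ ε : ℝ, 0 < ε → ∃ p ∈ Sp Y X,
    ∫ z, ‖f z - p z‖ ∂(ν.prod μ) ≤ ε} with h𝒞
  have hint : ∀ f p : Y × X → ℂ, BM f → p ∈ Sp Y X →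
      Integrable (fun z => ‖f z - p z‖) (ν.prod μ) := fun f p hf hp =>
    ((BM.int hf).sub (BM.int (BM_Sp hp))).norm
  have hadd : ∀ f f', f ∈ 𝒞 → f' ∈ 𝒞 → f + f' ∈ 𝒞 := by
    rintro f f' ⟨h1, h2⟩ ⟨h3, h4⟩
    refine ⟨BM_add h1 h3, fun ε hε => ?_⟩
    obtain ⟨p, hp, hpi⟩ := h2 (ε / 2) (half_pos hε)
    obtain ⟨p', hp', hpi'⟩ := h4 (ε / 2) (half_pos hε)
    refine ⟨p + p', add_mem hp hp', ?_⟩
    calc ∫ z, ‖(f + f') z - (p + p') z‖ ∂(ν.prod μ) ≤
          ∫ z, (‖f z - p z‖ + ‖f' z - p' z‖) ∂(ν.prod μ) := by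
          refine integral_mono (hint _ _ (BM_add h1 h3) (add_mem hp hp'))
            ((hint _ _ h1 hp).add (hint _ _ h3 hp')) fun z => ?_
          show ‖(f z + f' z) - (p z + p' z)‖ ≤ _
          rw [add_sub_add_comm]
          exact norm_add_le _ _
      _ = ∫ z, ‖f z - p z‖ ∂(ν.prod μ) + ∫ z, ‖f' z - p' z‖ ∂(ν.prod μ) :=
          integral_add (hint _ _ h1 hp) (hint _ _ h3 hp')
      _ ≤ ε := by linarith
  have hsmul : ∀ (c : ℂ) f, f ∈ 𝒞 → c • f ∈ 𝒞 := by
    rintro c f ⟨h1, h2⟩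
    refine ⟨BM_smul c h1, fun ε hε => ?_⟩
    obtain ⟨p, hp, hpi⟩ := h2 (ε / (‖c‖ + 1)) (by positivity)
    refine ⟨c • p, Submodule.smul_mem _ c hp, ?_⟩
    have e : ∀ z, ‖(c • f) z - (c • p) z‖ = ‖c‖ * ‖f z - p z‖ := fun z => by
      rw [Pi.smul_apply, Pi.smul_apply, ← smul_sub, norm_smul]
    simp_rw [e]
    rw [integral_const_mul]
    have h0 : 0 ≤ ∫ z, ‖f z - p z‖ ∂(ν.prod μ) := integral_nonneg fun z => norm_nonneg _
    calc ‖c‖ * ∫ z, ‖f z - p z‖ ∂(ν.prod μ) ≤ (‖c‖ + 1) * (ε / (‖c‖ + 1)) :=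
          mul_le_mul (by linarith) hpi h0 (by positivity)
      _ = ε := by field_simp
  have hcl : ∀ f, BM f → (∀ ε : ℝ, 0 < ε → ∃ f' ∈ 𝒞, ∫ z, ‖f z - f' z‖ ∂(ν.prod μ) ≤ ε) →
      f ∈ 𝒞 := by
    intro f hf h
    refine ⟨hf, fun ε hε => ?_⟩
    obtain ⟨f', ⟨h1, h2⟩, h3⟩ := h (ε / 2) (half_pos hε)
    obtain ⟨p, hp, hpi⟩ := h2 (ε / 2) (half_pos hε)
    refine ⟨p, hp, ?_⟩
    have hi : Integrable (fun z => ‖f z - f' z‖) (ν.prod μ) := ((BM.int hf).sub (BM.int h1)).norm
    calc ∫ z, ‖f z - p z‖ ∂(ν.prod μ) ≤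
          ∫ z, (‖f z - f' z‖ + ‖f' z - p z‖) ∂(ν.prod μ) := by
          refine integral_mono (hint _ _ hf hp) (hi.add (hint _ _ h1 hp)) fun z => ?_
          have e : f z - p z = (f z - f' z) + (f' z - p z) := by ring
          show ‖f z - p z‖ ≤ _
          rw [e]
          exact norm_add_le _ _
      _ = ∫ z, ‖f z - f' z‖ ∂(ν.prod μ) + ∫ z, ‖f' z - p z‖ ∂(ν.prod μ) :=
          integral_add hi (hint _ _ h1 hp)
      _ ≤ ε := by linarith
  have hind : ∀ s : Set (Y × X), MeasurableSet s → s.indicator (fun _ => (1 : ℂ)) ∈ 𝒞 := by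
    intro s hs
    induction s, hs using MeasurableSpace.induction_on_inter generateFrom_prod.symm
      isPiSystem_prod with
    | empty =>
      rw [Set.indicator_empty]
      refine ⟨⟨measurable_const, 0, fun _ => by simp⟩, fun ε hε => ⟨0, zero_mem _, ?_⟩⟩
      simp [hε.le]
    | basic u hu =>
      obtain ⟨s, hs, t, ht, rfl⟩ := hu
      have hs' : MeasurableSet s := hs
      have ht' : MeasurableSet t := ht
      refine ⟨ind_BM (hs'.prod ht') 1, fun ε hε => ?_⟩
      obtain ⟨p, hp, hpi⟩ := TP_dense_L1 (μ := μ) (F := t.indicator fun _ => (1 : ℂ))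
        (ind_BM ht' 1) hε
      have hpc : Continuous p := by
        refine Submodule.span_induction (p := fun (p : X → ℂ) _ => Continuous p) ?_ ?_ ?_ ?_ hp
        · rintro _ ⟨χ, rfl⟩
          exact chr_cont χ
        · exact continuous_const
        · rintro p q _ _ h1 h2
          exact h1.add h2
        · rintro c p _ h1
          exact h1.const_smul c
      have hps : (fun z : Y × X => s.indicator (fun _ => (1 : ℂ)) z.1 * p z.2) ∈ Sp Y X :=
        Submodule.subset_span ⟨_, p, ind_BM hs' 1, hpc, rfl⟩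
      refine ⟨_, hps, ?_⟩
      have e1 : ∀ z : Y × X, ‖(s ×ˢ t).indicator (fun _ => (1 : ℂ)) z -
          s.indicator (fun _ => (1 : ℂ)) z.1 * p z.2‖ ≤
          ‖t.indicator (fun _ => (1 : ℂ)) z.2 - p z.2‖ := by
        intro z
        by_cases h0 : z.1 ∈ s
        · by_cases h1 : z.2 ∈ t <;> simp [h0, h1, Set.indicator]
        · simp [h0, Set.indicator]
      have hti : Integrable (fun x => ‖t.indicator (fun _ => (1 : ℂ)) x - p x‖) μ :=
        ((BM.int (ind_BM ht' 1)).sub (BM.int (BM_cont hpc))).norm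
      have hti' : Integrable (fun z : Y × X => ‖t.indicator (fun _ => (1 : ℂ)) z.2 - p z.2‖)
          (ν.prod μ) := by
        have := hti.comp_snd ν
        exact this
      refine (integral_mono (hint _ _ (ind_BM (hs'.prod ht') 1) hps) hti' e1).trans ?_
      have e2 := integral_prod (μ := ν) (ν := μ)
        (fun z : Y × X => ‖t.indicator (fun _ => (1 : ℂ)) z.2 - p z.2‖) hti'
      rw [e2]
      simp only [integral_const, probReal_univ, smul_eq_mul, one_mul]
      exact hpi
    | compl s hs ih =>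
      have h1 : (fun _ : Y × X => (1 : ℂ)) ∈ 𝒞 := by
        refine ⟨⟨measurable_const, 1, fun _ => by simp⟩, fun ε hε =>
          ⟨fun _ => 1, ?_, by simp [hε.le]⟩⟩
        refine Submodule.subset_span ⟨fun _ => 1, fun _ => 1,
          ⟨measurable_const, 1, fun _ => by simp⟩, continuous_const, ?_⟩
        funext z
        simp
      have h2 := hadd _ _ h1 (hsmul (-1) _ ih)
      have e : (fun _ : Y × X => (1 : ℂ)) + (-1 : ℂ) • s.indicator (fun _ => (1 : ℂ)) =
          sᶜ.indicator fun _ => (1 : ℂ) := by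
        funext z
        by_cases hz : z ∈ s <;> simp [hz]
      rwa [e] at h2
    | iUnion f hd hf ih =>
      refine hcl _ (ind_BM (MeasurableSet.iUnion hf) 1) fun ε hε => ?_
      have hlim : Tendsto (fun n : ℕ => (ν.prod μ) (⋃ i, f i \ ⋃ i ∈ Finset.range n, f i)) atTop
          (𝓝 0) := by
        have h1 : Antitone fun n : ℕ => (⋃ i, f i) \ ⋃ i ∈ Finset.range n, f i := by
          intro a b hab
          refine Set.diff_subset_diff_right ?_
          exact Set.biUnion_subset_biUnion_left fun i hi =>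
            Finset.mem_range.2 ((Finset.mem_range.1 hi).trans_le hab)
        have h2 : ⋂ n : ℕ, ((⋃ i, f i) \ ⋃ i ∈ Finset.range n, f i) = ∅ := by
          rw [Set.eq_empty_iff_forall_notMem]
          intro z hz
          rw [Set.mem_iInter] at hz
          obtain ⟨i, hi⟩ := Set.mem_iUnion.1 (hz 0).1
          exact (hz (i + 1)).2 (Set.mem_biUnion (Finset.mem_coe.2 (Finset.mem_range.2
            (Nat.lt_succ_self i))) hi)
        have h3 := tendsto_measure_iInter_atTop (μ := ν.prod μ)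
          (s := fun n : ℕ => (⋃ i, f i) \ ⋃ i ∈ Finset.range n, f i)
          (fun n => ((MeasurableSet.iUnion hf).diff (Finset.measurableSet_biUnion _
            fun i _ => hf i)).nullMeasurableSet) h1 ⟨0, measure_ne_top _ _⟩
        rw [h2, measure_empty] at h3
        simp_rw [Set.iUnion_diff] at h3
        exact h3
      have hlim' : ∀ᶠ n : ℕ in atTop, (ν.prod μ) (⋃ i, f i \ ⋃ i ∈ Finset.range n, f i) <
          ENNReal.ofReal ε := (tendsto_order.1 hlim).2 _ (ENNReal.ofReal_pos.2 hε)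
      obtain ⟨n, hn⟩ := hlim'.exists
      have hfin : ∀ n : ℕ, (⋃ i ∈ Finset.range n, f i).indicator (fun _ => (1 : ℂ)) ∈ 𝒞 := by
        intro n
        have e : (⋃ i ∈ Finset.range n, f i).indicator (fun _ => (1 : ℂ)) =
            ∑ i ∈ Finset.range n, (f i).indicator fun _ => (1 : ℂ) := by
          funext z
          rw [Finset.indicator_biUnion, Finset.sum_apply]
          exact fun i _ j _ hij => hd hij
        rw [e]
        have h0 : (0 : Y × X → ℂ) ∈ 𝒞 :=
          ⟨⟨measurable_const, 0, fun _ => by simp⟩, fun ε hε => ⟨0, zero_mem _, by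
            simp [hε.le]⟩⟩
        induction n with
        | zero => simpa using h0
        | succ n ihn =>
          rw [Finset.sum_range_succ]
          refine hadd _ _ (ihn ?_) (ih n)
          funext z
          rw [Finset.indicator_biUnion, Finset.sum_apply]
          exact fun i _ j _ hij => hd hij
      refine ⟨_, hfin n, ?_⟩
      have e2 : ∀ z, ‖(⋃ i, f i).indicator (fun _ => (1 : ℂ)) z -
          (⋃ i ∈ Finset.range n, f i).indicator (fun _ => (1 : ℂ)) z‖ =
          (⋃ i, f i \ ⋃ i ∈ Finset.range n, f i).indicator (fun _ => (1 : ℝ)) z := by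
        intro z
        rw [← Set.iUnion_diff]
        by_cases h1 : z ∈ ⋃ i ∈ Finset.range n, f i
        · have h2 : z ∈ ⋃ i, f i := by
            obtain ⟨i, _, hi⟩ := Set.mem_iUnion₂.1 h1
            exact Set.mem_iUnion.2 ⟨i, hi⟩
          rw [Set.indicator_of_mem h1, Set.indicator_of_mem h2, Set.indicator_of_notMem]
          · simp
          · exact fun h => h.2 h1
        · by_cases h2 : z ∈ ⋃ i, f i
          · rw [Set.indicator_of_notMem h1, Set.indicator_of_mem h2, Set.indicator_of_mem]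
            · simp
            · exact ⟨h2, h1⟩
          · rw [Set.indicator_of_notMem h1, Set.indicator_of_notMem h2, Set.indicator_of_notMem]
            · simp
            · exact fun h => h2 h.1
      simp_rw [e2]
      have hms : MeasurableSet (⋃ i, f i \ ⋃ i ∈ Finset.range n, f i) :=
        MeasurableSet.iUnion fun i => (hf i).diff (Finset.measurableSet_biUnion _ fun i _ => hf i)
      rw [integral_indicator_const _ hms, smul_eq_mul, mul_one, measureReal_def]
      exact ENNReal.toReal_le_of_le_ofReal hε.le hn.le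
  have hmem : MemLp f 1 (ν.prod μ) := memLp_one_iff_integrable.2 (BM.int hf)
  have hconv : ∀ f p : Y × X → ℂ, BM f → p ∈ Sp Y X →
      eLpNorm (fun z => f z - p z) 1 (ν.prod μ) =
        ENNReal.ofReal (∫ z, ‖f z - p z‖ ∂(ν.prod μ)) := by
    intro f p hf hp
    rw [eLpNorm_one_eq_lintegral_enorm]
    exact (ofReal_integral_norm_eq_lintegral_enorm
      ((BM.int hf).sub (BM.int (BM_Sp hp)))).symm
  obtain ⟨p, hp1, hp2⟩ := hmem.induction_dense ENNReal.one_ne_top (fun p => p ∈ Sp Y X)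
    (fun c s hs _ ε hε => by
      obtain ⟨r, hr0, hr⟩ : ∃ r : ℝ, 0 < r ∧ ENNReal.ofReal r ≤ ε := by
        rcases eq_or_ne ε ⊤ with rfl | h
        · exact ⟨1, one_pos, le_top⟩
        · exact ⟨ε.toReal, ENNReal.toReal_pos hε h, ENNReal.ofReal_toReal_le⟩
      obtain ⟨_, h2⟩ := hsmul c _ (hind s hs)
      obtain ⟨p, hp, hpi⟩ := h2 r hr0
      refine ⟨p, ?_, hp⟩
      have e1 : (c • s.indicator fun _ => (1 : ℂ)) = s.indicator fun _ => c := by
        funext z
        by_cases hz : z ∈ s <;> simp [hz]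
      rw [e1] at hpi
      have h3 := hconv _ p (ind_BM hs c) hp
      have h4 : eLpNorm (p - s.indicator fun _ => c) 1 (ν.prod μ) =
          eLpNorm (fun z => (s.indicator (fun _ => c)) z - p z) 1 (ν.prod μ) := by
        rw [← eLpNorm_neg]
        congr 1
        funext z
        simp
      rw [h4, h3]
      exact (ENNReal.ofReal_le_ofReal hpi).trans hr)
    (fun f g hf hg => add_mem hf hg) (fun f hf => (BM.int (BM_Sp hf)).1)
    (ε := ENNReal.ofReal ε) (by simpa using hε)
  refine ⟨p, hp2, ?_⟩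
  have h5 := hconv f p hf hp2
  have h6 : ENNReal.ofReal (∫ z, ‖f z - p z‖ ∂(ν.prod μ)) ≤ ENNReal.ofReal ε := by
    rw [← h5]
    exact hp1
  exact (ENNReal.ofReal_le_ofReal_iff hε.le).1 h6

end sp

end

end Pool.Agent.H71.NU
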