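import Pool.Agent.H71.NU.Comb
import Pool.Agent.H71.NU.Clo

set_option autoImplicit false
set_option linter.unusedSectionVars false

/-!
# Assembly
-/

namespace Pool.Agent.H71.NU

open Filter Topology MeasureTheory
open scoped ENNReal Polynomial
open Pool.Agent.H71.WW (av avr av_of_sides BM Bd Cv Cv_closed Cv_closed' SingleGood avr_bound)

noncomputable section

/-- essentially bounded functions have bounded measurable representatives -/
theorem BM_of_memLp {Y : Type} [MeasurableSpace Y] {ν : Measure Y} {f : Y → ℂ}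
    (hf : MemLp f ∞ ν) : ∃ g : Y → ℂ, BM g ∧ f =ᵐ[ν] g := by
  obtain ⟨g, hgm, hfg⟩ := hf.1
  have hg : MemLp g ∞ ν := (memLp_congr_ae hfg).mp hf
  obtain ⟨C, hC⟩ : ∃ C : ℝ, ∀ᵐ x ∂ν, ‖g x‖ ≤ C := by
    have h1 : eLpNormEssSup g ν < ∞ := by
      have := hg.2
      rwa [eLpNorm_exponent_top] at this
    refine ⟨(eLpNormEssSup g ν).toReal, ?_⟩
    filter_upwards [ae_le_eLpNormEssSup (f := g) (μ := ν)] with x hx
    rw [← toReal_enorm]
    exact ENNReal.toReal_mono h1.ne hx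
  refine ⟨fun x => if ‖g x‖ ≤ C then g x else 0, ⟨?_, |C|, fun x => ?_⟩, ?_⟩
  · exact Measurable.ite (measurableSet_le hgm.measurable.norm measurable_const) hgm.measurable
      measurable_const
  · show ‖if ‖g x‖ ≤ C then g x else 0‖ ≤ |C|
    split_ifs with h
    · exact h.trans (le_abs_self _)
    · simp
  · filter_upwards [hfg, hC] with x hx hx'
    rw [hx, if_pos hx']

/-- Birkhoff's theorem -/
theorem good_lin {Z : Type} [MeasurableSpace Z] {P : Measure Z} [IsProbabilityMeasure P]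
    {a b : Equiv.Perm Z} (ha : MeasurePreserving a P P)
    (ha' : MeasurePreserving (a⁻¹ : Equiv.Perm Z) P P) (hb : MeasurePreserving b P P) :
    SingleGood P (fun (n : ℤ) => ((a ^ n * b : Equiv.Perm Z) : Z → Z)) := by
  intro G hG hC
  obtain ⟨C, hC⟩ := hC
  have h1 := WW.BPE.birkhoff ha G hG C hC
  have h2 := WW.BPE.birkhoff ha' G hG C hC
  have h3 := hb.quasiMeasurePreserving.ae (h1.and h2)
  filter_upwards [h3] with z hz
  obtain ⟨hz1, hz2⟩ := hz
  have e := av_of_sides (u := fun n : ℤ => (G ((a ^ n) (b z)) : ℂ)) (C := C) (by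
    rw [Complex.norm_real]
    exact hC _) (L := (((P[G | MeasurableSpace.invariants a]) (b z) : ℝ) : ℂ))
    (M := (((P[G | MeasurableSpace.invariants (a⁻¹ : Equiv.Perm Z)]) (b z) : ℝ) : ℂ)) ?_ ?_
  · have e2 := (Complex.continuous_re.tendsto _).comp e
    refine ⟨_, e2.congr fun N => ?_⟩
    simp only [Function.comp_apply, av]
    have e3 : ((2 * N + 1 : ℕ) : ℂ)⁻¹ = (((2 * N + 1 : ℕ) : ℝ)⁻¹ : ℝ) := by push_cast; rfl
    rw [e3, ← Complex.ofReal_sum, ← Complex.ofReal_mul, Complex.ofReal_re]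
    rfl
  · refine ((Complex.continuous_ofReal.tendsto _).comp hz1).congr fun N => ?_
    rw [Function.comp_apply, Complex.ofReal_mul, Complex.ofReal_inv, Complex.ofReal_natCast,
      Complex.ofReal_sum]
    congr 1
  · refine ((Complex.continuous_ofReal.tendsto _).comp hz2).congr fun N => ?_
    rw [Function.comp_apply, Complex.ofReal_mul, Complex.ofReal_inv, Complex.ofReal_natCast,
      Complex.ofReal_sum]
    congr 1
    exact Finset.sum_congr rfl fun n _ => by
      rw [zpow_neg, zpow_natCast, ← inv_pow, Equiv.Perm.coe_pow]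

/-- The closure property with an almost everywhere majorant. -/
theorem Cv_closed_ae {X : Type} [MeasurableSpace X] {μ : Measure X} [IsProbabilityMeasure μ]
    {J : Type*} [Fintype J] [DecidableEq J] {g : J → ℤ → X → X}
    {F : J → X → ℂ} (hF : ∀ l, Bd (F l)) {j : J}
    (hg : ∀ m, MeasurePreserving (g j m) μ μ) {f : X → ℂ} (hf : Bd f)
    (h : ∀ ε : ℝ, 0 < ε → ∃ (f' : X → ℂ) (K : X → ℝ), Bd f' ∧ Measurable K ∧
      (∃ C, ∀ x, |K x| ≤ C) ∧ (∀ x, 0 ≤ K x) ∧
      (∀ᵐ x ∂μ, ‖f x - f' x‖ ≤ K x) ∧ ∫ x, K x ∂μ ≤ ε ∧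
      (∀ᵐ x ∂μ, ∃ L : ℝ, Tendsto (fun N => avr N fun n => K (g j n x)) atTop (𝓝 L)) ∧
      Cv μ g (Function.update F j f')) :
    Cv μ g (Function.update F j f) := by
  classical
  apply Cv_closed' hF hg
  intro ε hε
  obtain ⟨f', K, ⟨C₁, hC₁⟩, hKm, ⟨C₂, hC₂⟩, hK0, hKf, hKi, hKc, hcv⟩ := h ε hε
  obtain ⟨C₀, hC₀⟩ := hf
  set E : Set X := toMeasurable μ {x | ¬ ‖f x - f' x‖ ≤ K x} with hE
  have hE0 : μ E = 0 := by
    rw [hE, measure_toMeasurable]
    exact hKf
  have hEm : MeasurableSet E := measurableSet_toMeasurable _ _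
  have hEa : ∀ᵐ x ∂μ, x ∉ E := measure_eq_zero_iff_ae_notMem.1 hE0
  set C : ℝ := |C₀ + C₁| with hC
  refine ⟨f', fun x => K x + E.indicator (fun _ => C) x, ?_, ?_, ?_, ?_, ?_, hcv⟩
  · exact hKm.add (measurable_const.indicator hEm)
  · refine ⟨C₂ + C, fun x => (abs_add_le _ _).trans (add_le_add (hC₂ x) ?_)⟩
    by_cases hx : x ∈ E
    · rw [Set.indicator_of_mem hx, hC, abs_abs]
    · rw [Set.indicator_of_notMem hx, abs_zero]
      exact abs_nonneg _
  · intro x
    show ‖f x - f' x‖ ≤ K x + E.indicator (fun _ => C) x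
    by_cases hx : x ∈ E
    · rw [Set.indicator_of_mem hx]
      have h1 : ‖f x - f' x‖ ≤ C :=
        ((norm_sub_le _ _).trans (add_le_add (hC₀ x) (hC₁ x))).trans (le_abs_self _)
      have h2 := hK0 x
      linarith
    · rw [Set.indicator_of_notMem hx, add_zero]
      by_contra h1
      exact hx (subset_toMeasurable _ _ h1)
  · have e : ∫ x, (K x + E.indicator (fun _ => C) x) ∂μ = ∫ x, K x ∂μ := by
      apply integral_congr_ae
      filter_upwards [hEa] with x hx
      rw [Set.indicator_of_notMem hx, add_zero]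
    rw [e]
    exact hKi
  · have hall : ∀ᵐ x ∂μ, ∀ n : ℤ, g j n x ∉ E := by
      rw [ae_all_iff]
      intro n
      exact (hg n).quasiMeasurePreserving.ae hEa
    filter_upwards [hKc, hall] with x hx hx'
    obtain ⟨L, hL⟩ := hx
    refine ⟨L, hL.congr fun N => ?_⟩
    congr 1
    funext n
    rw [Set.indicator_of_notMem (hx' n), add_zero]

variable {X Y : Type} [CommGroup X] [TopologicalSpace X] [IsTopologicalGroup X] [CompactSpace X]
  [T2Space X] [MeasurableSpace X] [BorelSpace X] {μ : Measure X} [μ.IsHaarMeasure]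
  [IsProbabilityMeasure μ] [MeasurableSpace Y] {ν : Measure Y} [IsProbabilityMeasure ν]

theorem ae_le_fib : ae (ν.prod μ) ≤ comap Prod.fst (ae ν) := by
  rw [← tendsto_iff_comap]
  exact (Measure.quasiMeasurePreserving_fst (μ := ν) (ν := μ)).tendsto_ae

/-- all slots -/
theorem slots {m : ℕ} {g : Fin m → ℤ → Y × X → Y × X}
    (mp : ∀ j n, MeasurePreserving (g j n) (ν.prod μ) (ν.prod μ))
    (hQ : ∀ (l : ℕ) (φ : Fin l → Fin m) (F : Fin l → Y × X → ℂ), (∀ j, F j ∈ Qc Y X) →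
      CL (comap Prod.fst (ae ν)) (fun j => g (φ j)) F)
    {F : Fin m → Y × X → ℂ} (hb : ∀ j, BM (F j))
    (hF : ∀ j, FR μ ν (F j) ∨ SingleGood (ν.prod μ) (g j)) :
    Cv (ν.prod μ) g F := by
  have hSp : ∀ (l : ℕ) (φ : Fin l → Fin m) (F : Fin l → Y × X → ℂ), (∀ j, F j ∈ Sp Y X) →
      CL (ae (ν.prod μ)) (fun j => g (φ j)) F := fun l φ F hF =>
    Filter.Eventually.filter_mono ae_le_fib (all_Sp (hQ l φ) hF)
  refine ext_slots (P := Cv (ν.prod μ) g) (𝒬 := (Sp Y X : Set _))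
    (𝒜 := fun j => {f | BM f ∧ (FR μ ν f ∨ SingleGood (ν.prod μ) (g j))}) ?_
    (fun F hF => hSp m id F hF) (fun j => ⟨hb j, hF j⟩)
  intro f hf k hstep h ⟨hh, hs⟩
  have hfb : ∀ j, Bd (f j) := by
    intro j
    rcases hf j with h1 | h1
    · exact (BM_Sp h1).2
    · exact h1.1.2
  rcases hs with h1 | h1
  · refine Cv_closed_ae hfb (mp k) hh.2 fun ε hε => ?_
    obtain ⟨p, K, hp, hK, hpK, hKi⟩ := h1 ε hε
    obtain ⟨hKm, C, hC⟩ := BM_Sp hK
    have hKm' : Measurable K := Complex.continuous_re.measurable.comp hKm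
    have hK0 : ∀ᵐ z ∂(ν.prod μ), 0 ≤ K z := by
      filter_upwards [hpK] with z hz
      exact (norm_nonneg _).trans hz
    have hC' : ∀ z, |K z| ≤ C := fun z => by
      have := hC z
      rwa [Complex.norm_real] at this
    refine ⟨p, fun z => max (K z) 0, (BM_Sp hp).2, hKm'.max measurable_const,
      ⟨C, fun z => ?_⟩, fun z => le_max_right _ _, ?_, ?_, ?_, hstep p hp⟩
    · rw [abs_of_nonneg (le_max_right _ _)]
      exact max_le ((le_abs_self _).trans (hC' z)) ((abs_nonneg _).trans (hC' z))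
    · filter_upwards [hpK] with z hz
      exact hz.trans (le_max_left _ _)
    · refine le_trans (le_of_eq (integral_congr_ae ?_)) hKi
      filter_upwards [hK0] with z hz
      exact max_eq_left hz
    · have h2 := hSp 1 (fun _ => k) (fun _ z => (K z : ℂ)) fun _ => hK
      have h3 : ∀ᵐ z ∂(ν.prod μ), ∀ n : ℤ, 0 ≤ K (g k n z) := by
        rw [ae_all_iff]
        intro n
        exact (mp k n).quasiMeasurePreserving.ae hK0
      filter_upwards [h2, h3] with z hz hz'
      obtain ⟨L, hL⟩ := hz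
      refine ⟨L.re, ((Complex.continuous_re.tendsto L).comp hL).congr fun N => ?_⟩
      simp only [Function.comp_apply, av, avr, Fin.prod_univ_one]
      have e : ((2 * N + 1 : ℕ) : ℂ)⁻¹ = (((2 * N + 1 : ℕ) : ℝ)⁻¹ : ℝ) := by push_cast; rfl
      rw [e, ← Complex.ofReal_sum, ← Complex.ofReal_mul, Complex.ofReal_re]
      congr 1
      exact Finset.sum_congr rfl fun n _ => (max_eq_left (hz' n)).symm
  · refine Cv_closed hfb (mp k) h1 hh fun ε hε => ?_
    obtain ⟨p, hp, hpi⟩ := Sp_dense (μ := μ) (ν := ν) hh hε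
    exact ⟨p, BM_Sp hp, hpi, hstep p hp⟩

/-- essentially bounded functions -/
theorem slots_linf {m : ℕ} {g : Fin m → ℤ → Y × X → Y × X}
    (mp : ∀ j n, MeasurePreserving (g j n) (ν.prod μ) (ν.prod μ))
    (hQ : ∀ (l : ℕ) (φ : Fin l → Fin m) (F : Fin l → Y × X → ℂ), (∀ j, F j ∈ Qc Y X) →
      CL (comap Prod.fst (ae ν)) (fun j => g (φ j)) F)
    {f : Fin m → Y × X → ℂ} (hf : ∀ j, MemLp (f j) ∞ (ν.prod μ))
    (hF : ∀ j, FR μ ν (f j) ∨ SingleGood (ν.prod μ) (g j)) :
    Cv (ν.prod μ) g f := by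
  choose F hFb hfF using fun j => BM_of_memLp (hf j)
  have hs : ∀ j, FR μ ν (F j) ∨ SingleGood (ν.prod μ) (g j) := by
    intro j
    rcases hF j with h | h
    · left
      intro ε hε
      obtain ⟨p, K, h1, h2, h3, h4⟩ := h ε hε
      refine ⟨p, K, h1, h2, ?_, h4⟩
      filter_upwards [h3, hfF j] with z hz hz'
      rwa [← hz']
    · exact Or.inr h
  have h0 := slots mp hQ hFb hs
  have h1 : ∀ᵐ z ∂(ν.prod μ), ∀ n j, f j (g j n z) = F j (g j n z) := by
    rw [ae_all_iff]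
    intro n
    rw [ae_all_iff]
    intro j
    exact (mp j n).quasiMeasurePreserving.ae (hfF j)
  filter_upwards [h0, h1] with z hz hz'
  obtain ⟨L, hL⟩ := hz
  refine ⟨L, hL.congr fun N => ?_⟩
  congr 1
  funext n
  exact Finset.prod_congr rfl fun j _ => (hz' n j).symm

section grp

variable (μ ν) in
/-- the measure preserving bijections -/
def MPG : Subgroup (Equiv.Perm (Y × X)) where
  carrier := {g | MeasurePreserving g (ν.prod μ) (ν.prod μ) ∧
    MeasurePreserving (g⁻¹ : Equiv.Perm (Y × X)) (ν.prod μ) (ν.prod μ)}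
  mul_mem' := by
    rintro a b ⟨ha, ha'⟩ ⟨hb, hb'⟩
    refine ⟨ha.comp hb, ?_⟩
    rw [mul_inv_rev]
    exact hb'.comp ha'
  one_mem' := ⟨MeasurePreserving.id _, MeasurePreserving.id _⟩
  inv_mem' := by
    rintro a ⟨ha, ha'⟩
    refine ⟨ha', ?_⟩
    rw [inv_inv]
    exact ha

theorem tr_mp (a : X) : MeasurePreserving (tr a : Equiv.Perm (Y × X)) (ν.prod μ) (ν.prod μ) := by
  have h1 : MeasurePreserving (fun x : X => x * a) μ μ := measurePreserving_mul_right μ a
  exact (MeasurePreserving.id ν).prod h1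

theorem tr_MPG (a : X) : (tr a : Equiv.Perm (Y × X)) ∈ MPG μ ν := by
  refine ⟨tr_mp a, ?_⟩
  have e : ((tr a : Equiv.Perm (Y × X))⁻¹ : Equiv.Perm (Y × X)) = tr a⁻¹ := by
    ext1 z
    rfl
  rw [e]
  exact tr_mp a⁻¹

/-- the base of powers -/
theorem base_zpow {t : Equiv.Perm (Y × X)} {σ : Equiv.Perm Y} (h : ∀ z, (t z).1 = σ z.1) (n : ℤ) :
    ∀ z, ((t ^ n) z).1 = (σ ^ n) z.1 := by
  have hi : ∀ z, (t⁻¹ z).1 = σ⁻¹ z.1 := by
    intro z
    apply σ.injective
    rw [← h, app_inv_self, app_inv_self]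
  induction n with
  | zero => exact fun z => rfl
  | succ n ih =>
    intro z
    rw [zpow_add_one, zpow_add_one, Equiv.Perm.mul_apply, Equiv.Perm.mul_apply, ih, h]
  | pred n ih =>
    intro z
    rw [zpow_sub_one, zpow_sub_one, Equiv.Perm.mul_apply, Equiv.Perm.mul_apply, ih, hi]

theorem base_list {d : ℕ} {T : Fin d → Equiv.Perm (Y × X)} {S : Fin d → Equiv.Perm Y}
    (h : ∀ i z, (T i z).1 = S i z.1) (k : Fin d → ℤ) (z : Y × X) :
    ((List.ofFn fun i => T i ^ k i).prod z).1 = (List.ofFn fun i => S i ^ k i).prod z.1 := by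
  have key : ∀ (L : List (Equiv.Perm (Y × X) × Equiv.Perm Y)),
      (∀ p ∈ L, ∀ z, (p.1 z).1 = p.2 z.1) → ∀ z, ((L.map Prod.fst).prod z).1 =
        (L.map Prod.snd).prod z.1 := by
    intro L
    induction L with
    | nil => exact fun _ z => rfl
    | cons p L ih =>
      intro hL z
      rw [List.map_cons, List.map_cons, List.prod_cons, List.prod_cons, Equiv.Perm.mul_apply,
        Equiv.Perm.mul_apply, hL p List.mem_cons_self,
        ih (fun q hq => hL q (List.mem_cons_of_mem _ hq))]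
  have h1 := key (List.ofFn fun i => (T i ^ k i, S i ^ k i)) (fun p hp z => by
    rw [List.mem_ofFn] at hp
    obtain ⟨i, rfl⟩ := hp
    exact base_zpow (h i) (k i) z) z
  rw [List.map_ofFn, List.map_ofFn] at h1
  exact h1

end grp

/-- the map `T_1 ^ (P_1 n) ⋯ T_d ^ (P_d n)` -/
def word {Z : Type} {d : ℕ} (T : Fin d → Equiv.Perm Z) (P : Fin d → ℤ[X]) (n : ℤ) :
    Equiv.Perm Z :=
  (List.ofFn fun i : Fin d => T i ^ (P i).eval n).prod

/-- the translations of the fibres and the maps -/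
def Gs {d : ℕ} (T : Fin d → Equiv.Perm (Y × X)) : Set (Equiv.Perm (Y × X)) :=
  Set.range T ∪ Set.range fun a : X => (tr a : Equiv.Perm (Y × X))


/-- the base of a word -/
theorem base_word {d : ℕ} {T : Fin d → Equiv.Perm (Y × X)} {S : Fin d → Equiv.Perm Y}
    (h : ∀ i z, (T i z).1 = S i z.1) (P : Fin d → ℤ[X]) (n : ℤ) (z : Y × X) :
    (word T P n z).1 = word S P n z.1 := base_list h _ z

variable {d m : ℕ} {S : Fin d → Equiv.Perm Y} {α : Fin d → MulAut X} {c : Fin d → Y → X}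
  {T : Fin d → Equiv.Perm (Y × X)} {P : Fin m → Fin d → ℤ[X]} {σ : Equiv.Perm Y}
  {b : Fin m → Equiv.Perm Y}

theorem mem_S_word {S' : Subgroup (Equiv.Perm (Y × X))} (h : ∀ i, T i ∈ S') (P : Fin d → ℤ[X])
    (n : ℤ) : word T P n ∈ S' := by
  apply Subgroup.list_prod_mem
  intro x hx
  rw [List.mem_ofFn] at hx
  obtain ⟨i, rfl⟩ := hx
  exact zpow_mem (h i) _

theorem all_mp (hmp : ∀ i, T i ∈ MPG μ ν) {g : Equiv.Perm (Y × X)}
    (hg : g ∈ Subgroup.closure (Gs T)) : g ∈ MPG μ ν := by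
  have : Subgroup.closure (Gs T) ≤ MPG μ ν := by
    rw [Subgroup.closure_le]
    rintro g (⟨i, rfl⟩ | ⟨a, rfl⟩)
    · exact hmp i
    · exact tr_MPG a
  exact this hg

/-- the character case -/
theorem main_Qc (hT : ∀ i y x, T i (y, x) = (S i y, α i x * c i y)) (hmp : ∀ i, T i ∈ MPG μ ν)
    (hG : Group.IsNilpotent (Subgroup.closure (Gs T)))
    (hσ : ∀ j n, word S (P j) n = b j * σ ^ n) (l : ℕ) (φ : Fin l → Fin m)
    (F : Fin l → Y × X → ℂ) (hF : ∀ j, F j ∈ Qc Y X) :
    CL (comap Prod.fst (ae ν)) (fun j n z => word T (P (φ j)) n z) F := by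
  rcases Nat.eq_zero_or_pos l with rfl | hl
  · refine Eventually.of_forall fun z => ⟨1, ?_⟩
    refine tendsto_const_nhds.congr fun N => ?_
    unfold av
    rw [Finset.sum_congr rfl fun n _ => Fin.prod_univ_zero _, Finset.sum_const, WW.card_Icc',
      nsmul_eq_mul, mul_one, inv_mul_cancel₀]
    exact_mod_cast (Nat.succ_ne_zero (2 * N))
  set S' := Subgroup.closure (Gs T) with hS'
  obtain ⟨e, he⟩ := (Subgroup.isNilpotent_iff_lowerCentralSeries S').1 hG
  have hTS : ∀ i, T i ∈ S' := fun i => Subgroup.subset_closure (Or.inl ⟨i, rfl⟩)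
  have nl : Nl S' (e + 1) := by
    refine ⟨fun a => Subgroup.subset_closure (Or.inr ⟨a, rfl⟩), fun g hg => ?_, ?_, by omega⟩
    · induction hg using Subgroup.closure_induction with
      | mem g hg =>
        rcases hg with ⟨i, rfl⟩ | ⟨a, rfl⟩
        · exact ⟨α i, S i, c i, hT i⟩
        · exact ⟨1, Lin.tr a⟩
      | one => exact ⟨1, Lin.one⟩
      | mul g h _ _ ih ih' =>
        obtain ⟨a, ha⟩ := ih
        obtain ⟨a', ha'⟩ := ih'
        exact ⟨a * a', ha.mul ha'⟩
      | inv g _ ih =>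
        obtain ⟨a, ha⟩ := ih
        exact ⟨a⁻¹, ha.inv⟩
    · rw [eq_bot_iff, ← he]
      exact S'.lowerCentralSeries_antitone (by omega)
  set D : ℕ := 1 + ∑ j, ∑ i, (P j i).natDegree with hDdef
  have hD : 1 ≤ D := Nat.le_add_right _ _
  have hdeg : ∀ j i, (P j i).natDegree ≤ D := by
    intro j i
    have h1 : (P j i).natDegree ≤ ∑ i, (P j i).natDegree :=
      Finset.single_le_sum (f := fun i => (P j i).natDegree) (fun _ _ => Nat.zero_le _)
        (Finset.mem_univ i)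
    have h2 : ∑ i, (P j i).natDegree ≤ ∑ j, ∑ i, (P j i).natDegree :=
      Finset.single_le_sum (f := fun j => ∑ i, (P j i).natDegree) (fun _ _ => Nat.zero_le _)
        (Finset.mem_univ j)
    omega
  set k : Fin m := φ ⟨0, hl⟩ with hk
  have hT1 : ∀ i z, (T i z).1 = S i z.1 := by
    rintro i ⟨y, x⟩
    rw [hT]
  have hW : ∀ j n z, (word T (P j) n z).1 = b j ((σ ^ n) z.1) := by
    intro j n z
    rw [base_word hT1, hσ, Equiv.Perm.mul_apply]
  have hW0 : ∀ j z, (word T (P j) 0 z).1 = b j z.1 := by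
    intro j z
    rw [hW, zpow_zero]
    rfl
  set t : Equiv.Perm (Y × X) := (word T (P k) 0)⁻¹ * word T (P k) 1 with ht
  have htb : ∀ z, (t z).1 = σ z.1 := by
    intro z
    apply (b k).injective
    rw [← hW0 k, ht, Equiv.Perm.mul_apply, app_inv_self, hW, zpow_one]
  have H : Fam S' ν μ (e + 1) D hD t (fun j => word T (P (φ j)) 0)
      (fun j n => word T (P (φ j)) n) := by
    refine ⟨nl, fun g hg => (all_mp hmp hg).1, ?_, fun j => mem_S_word hTS _ _, fun j => ?_,
      fun j n z => ?_⟩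
    · exact mul_mem (inv_mem (mem_S_word hTS _ _)) (mem_S_word hTS _ _)
    · exact word_mem hD hTS (hdeg (φ j))
    · rw [hW, Equiv.Perm.mul_apply, hW0, base_zpow htb]
  choose h χ hh hχ using hF
  have h1 := H.chars χ hh
  unfold CL
  filter_upwards [h1] with z hz
  obtain ⟨L, hL⟩ := hz
  refine ⟨L, hL.congr fun N => ?_⟩
  congr 1
  funext n
  refine Finset.prod_congr rfl fun j _ => ?_
  rw [hχ j]

/-- **Main theorem.** -/
theorem main_thm (hT : ∀ i y x, T i (y, x) = (S i y, α i x * c i y)) (hmp : ∀ i, T i ∈ MPG μ ν)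
    (hG : Group.IsNilpotent (Subgroup.closure (Gs T)))
    (hσ : ∀ j n, word S (P j) n = b j * σ ^ n) {f : Fin m → Y × X → ℂ}
    (hf : ∀ j, MemLp (f j) ∞ (ν.prod μ))
    (hs : ∀ j, FR μ ν (f j) ∨ (∃ u ∈ Subgroup.closure (Gs T), ∃ v ∈ Subgroup.closure (Gs T),
      ∀ n : ℤ, word T (P j) n = u ^ n * v) ∨ SingleGood (ν.prod μ) (fun n z => word T (P j) n z)) :
    Cv (ν.prod μ) (fun j n z => word T (P j) n z) f := by
  have hTS : ∀ i, T i ∈ Subgroup.closure (Gs T) := fun i =>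
    Subgroup.subset_closure (Or.inl ⟨i, rfl⟩)
  refine slots_linf (fun j n => (all_mp hmp (mem_S_word hTS (P j) n)).1)
    (fun l φ F hF => main_Qc hT hmp hG hσ l φ F hF) hf fun j => ?_
  rcases hs j with h | ⟨u, hu, v, hv, h⟩ | h
  · exact Or.inl h
  · right
    have h1 := good_lin (all_mp hmp hu).1 (all_mp hmp hu).2 (all_mp hmp hv).1
    have e : (fun (n : ℤ) (z : Y × X) => word T (P j) n z) =
        fun n : ℤ => ((u ^ n * v : Equiv.Perm (Y × X)) : Y × X → Y × X) := by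
      funext n z
      rw [h n]
    rw [e]
    exact h1
  · exact Or.inr h

/-- **Fibrewise continuous functions.** -/
theorem main_fib (hT : ∀ i y x, T i (y, x) = (S i y, α i x * c i y)) (hmp : ∀ i, T i ∈ MPG μ ν)
    (hG : Group.IsNilpotent (Subgroup.closure (Gs T)))
    (hσ : ∀ j n, word S (P j) n = b j * σ ^ n) {f : Fin m → Y × X → ℂ}
    (hf : ∀ j, f j ∈ Sp Y X) :
    ∀ᵐ y ∂ν, ∀ x, ∃ L : ℂ, Tendsto (fun N => av N fun n => ∏ j, f j (word T (P j) n (y, x)))
      atTop (𝓝 L) := by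
  have h1 := all_Sp (fun F hF => main_Qc (μ := μ) hT hmp hG hσ m id F hF) hf
  unfold CL at h1
  rw [Filter.eventually_comap] at h1
  filter_upwards [h1] with y hy x
  exact hy (y, x) rfl

end

end Pool.Agent.H71.NU
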