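import Pool.Agent.H71.NU.SD

set_option autoImplicit false

/-!
# Polynomial sequences in nilpotent groups of skew products
-/

namespace Pool.Agent.H71.NU

open scoped commutatorElement Polynomial

section gam

variable {G : Type} [Group G] (S : Subgroup G)

/-- the lower central series, starting with `S` at `0` and at `1` -/
def Ga (k : ℕ) : Subgroup G := S.lowerCentralSeries (k - 1)

theorem Ga_anti {k l : ℕ} (h : k ≤ l) : Ga S l ≤ Ga S k :=
  S.lowerCentralSeries_antitone (Nat.sub_le_sub_right h 1)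

theorem Ga_comm (i j : ℕ) : ⁅Ga S i, Ga S j⁆ ≤ Ga S (i + j) :=
  (lcs_comm S (i - 1) (j - 1)).trans (S.lowerCentralSeries_antitone (by omega))

theorem Ga_low {k : ℕ} (h : k ≤ 1) : Ga S k = S := by
  unfold Ga
  rw [show k - 1 = 0 by omega]
  rfl

theorem Ga_le (k : ℕ) : Ga S k ≤ S := by
  have := Ga_anti S (Nat.zero_le k)
  rwa [Ga_low S (Nat.zero_le 1)] at this

theorem Ga_conj {k : ℕ} {g h : G} (hg : g ∈ S) (hh : h ∈ Ga S k) : g * h * g⁻¹ ∈ Ga S k := by
  have h1 : ⁅g, h⁆ ∈ Ga S (0 + k) :=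
    Ga_comm S 0 k (Subgroup.commutator_mem_commutator (by rwa [Ga_low S (Nat.zero_le 1)]) hh)
  rw [zero_add] at h1
  have h2 := mul_mem h1 hh
  rwa [commutatorElement_def, inv_mul_cancel_right] at h2

/-- dilation -/
def cd (D i : ℕ) : ℕ := (i + D - 1) / D

theorem cd_le_iff {D : ℕ} (hD : 1 ≤ D) {i k : ℕ} : cd D i ≤ k ↔ i ≤ k * D := by
  unfold cd
  rw [← Nat.lt_succ_iff, Nat.div_lt_iff_lt_mul (by omega), Nat.succ_mul]
  omega

theorem cd_mono {D : ℕ} (hD : 1 ≤ D) {i j : ℕ} (h : i ≤ j) : cd D i ≤ cd D j :=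
  (cd_le_iff hD).2 (h.trans ((cd_le_iff hD).1 le_rfl))

theorem cd_add {D : ℕ} (hD : 1 ≤ D) (i j : ℕ) : cd D (i + j) ≤ cd D i + cd D j := by
  rw [cd_le_iff hD, add_mul]
  exact add_le_add ((cd_le_iff hD).1 le_rfl) ((cd_le_iff hD).1 le_rfl)

theorem cd_le {D : ℕ} (hD : 1 ≤ D) (i : ℕ) : cd D i ≤ i :=
  (cd_le_iff hD).2 (Nat.le_mul_of_pos_right _ hD)

/-- the dilated filtration -/
def Fd (D i : ℕ) : Subgroup G := Ga S (cd D i)

theorem Fd_anti {D : ℕ} (hD : 1 ≤ D) {i j : ℕ} (h : i ≤ j) : Fd S D j ≤ Fd S D i :=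
  Ga_anti S (cd_mono hD h)

theorem Fd_comm {D : ℕ} (hD : 1 ≤ D) (i j : ℕ) : ⁅Fd S D i, Fd S D j⁆ ≤ Fd S D (i + j) :=
  (Ga_comm S _ _).trans (Ga_anti S (cd_add hD i j))

theorem Fd_low {D : ℕ} (hD : 1 ≤ D) {i : ℕ} (hi : i ≤ D) : Fd S D i = S :=
  Ga_low S ((cd_le_iff hD).2 (by omega))

end gam

section ip

/-- integer valued sequences with constant differences of order `e` -/
def IP : ℕ → Set (ℤ → ℤ)
  | 0 => {q | ∀ n, q n = q 0}
  | e + 1 => {q | ∀ h, (fun n => q (n + h) - q n) ∈ IP e}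

theorem IP_up {e : ℕ} {q : ℤ → ℤ} (h : q ∈ IP e) : q ∈ IP (e + 1) := by
  induction e generalizing q with
  | zero =>
    intro r n
    simp only
    rw [h (n + r), h n, h (0 + r), sub_self]
  | succ e ih => exact fun r => ih (h r)

theorem IP_mono {d e : ℕ} (hde : d ≤ e) {q : ℤ → ℤ} (h : q ∈ IP d) : q ∈ IP e := by
  induction e, hde using Nat.le_induction with
  | base => exact h
  | succ e _ ih => exact IP_up ih

theorem IP_poly (e : ℕ) : ∀ P : ℤ[X], P.natDegree ≤ e → (fun n => P.eval n) ∈ IP e := by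
  induction e with
  | zero =>
    intro P hP n
    have h1 := Polynomial.eq_C_of_natDegree_le_zero hP
    rw [h1]
    simp
  | succ e ih =>
    intro P hP r
    have e1 : (fun n => (fun n => P.eval n) (n + r) - (fun n => P.eval n) n) =
        fun n => (Polynomial.taylor r P - P).eval n := by
      funext n
      simp only
      rw [Polynomial.eval_sub, Polynomial.taylor_eval, add_comm n r, add_comm r n]
    rw [e1]
    apply ih
    by_cases h0 : P = 0
    · rw [h0]
      simp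
    by_cases h1 : Polynomial.taylor r P - P = 0
    · rw [h1]
      simp
    have hd : (Polynomial.taylor r P).degree = P.degree := Polynomial.degree_taylor P r
    have ht0 : Polynomial.taylor r P ≠ 0 := by
      intro h2
      rw [h2, Polynomial.degree_zero] at hd
      exact h0 (Polynomial.degree_eq_bot.1 hd.symm)
    have hlc : (Polynomial.taylor r P).leadingCoeff = P.leadingCoeff :=
      Polynomial.leadingCoeff_taylor r P
    have h2 := Polynomial.degree_sub_lt_left hd ht0 hlc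
    have h3 := Polynomial.natDegree_lt_natDegree h1 h2
    have h4 : (Polynomial.taylor r P).natDegree = P.natDegree := Polynomial.natDegree_taylor P r
    omega

variable {G : Type} [Group G] {S : Subgroup G}

theorem pol_const {D : ℕ} (hD : 1 ≤ D) {g : G} {k s : ℕ} (hg : g ∈ Fd S D s) :
    (fun _ : ℤ => g) ∈ Pol ℤ (Fd S D) k s := by
  cases k with
  | zero => exact fun _ => hg
  | succ k =>
    refine ⟨fun _ => hg, fun r => ?_⟩
    have e : NU.D r (fun _ : ℤ => g) = 1 := by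
      funext n
      exact mul_inv_cancel g
    rw [e]
    exact Pol_one

theorem pol_pow {D : ℕ} (hD : 1 ≤ D) {g : G} (hg : g ∈ S) (k : ℕ) : ∀ (s e : ℕ) (q : ℤ → ℤ),
    q ∈ IP e → s + e ≤ D → (fun n => g ^ q n) ∈ Pol ℤ (Fd S D) k s := by
  induction k with
  | zero =>
    intro s e q _ hse n
    rw [Fd_low S hD (by omega)]
    exact zpow_mem hg _
  | succ k ih =>
    intro s e q hq hse
    refine ⟨fun n => ?_, fun r => ?_⟩
    · rw [Fd_low S hD (by omega)]
      exact zpow_mem hg _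
    · have e1 : NU.D r (fun n => g ^ q n) = fun n => g ^ (q (n + r) - q n) := by
        funext n
        simp only [NU.D]
        rw [zpow_sub]
      rw [e1]
      cases e with
      | zero =>
        have e2 : (fun n => g ^ (q (n + r) - q n)) = 1 := by
          funext n
          rw [hq (n + r), hq n, sub_self, zpow_zero]
          rfl
        rw [e2]
        exact Pol_one
      | succ e => exact ih (s + 1) e _ (hq r) (by omega)

end ip

section words

variable {G : Type} [Group G] {S : Subgroup G}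

/-- the group of polynomial sequences -/
abbrev PG (S : Subgroup G) (D : ℕ) (hD : 1 ≤ D) : Subgroup (ℤ → G) :=
  PolG ℤ (Fd S D) (fun i => Fd_anti S hD (Nat.le_succ i)) (Fd_comm S hD) 0

theorem const_mem {D : ℕ} (hD : 1 ≤ D) {g : G} (hg : g ∈ S) : (fun _ : ℤ => g) ∈ PG S D hD :=
  fun _ => pol_const hD (by rwa [Fd_low S hD (Nat.zero_le D)])

theorem pow_mem' {D : ℕ} (hD : 1 ≤ D) {g : G} (hg : g ∈ S) {P : ℤ[X]} (hP : P.natDegree ≤ D) :
    (fun n => g ^ P.eval n) ∈ PG S D hD :=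
  fun k => pol_pow hD hg k 0 D _ (IP_poly D P hP) (by omega)

theorem zpow_mem' {D : ℕ} (hD : 1 ≤ D) {g : G} (hg : g ∈ S) :
    (fun n : ℤ => g ^ n) ∈ PG S D hD := by
  have h := pow_mem' hD hg (P := Polynomial.X) (by
    refine Polynomial.natDegree_X_le.trans hD)
  simpa using h

theorem word_mem {D : ℕ} (hD : 1 ≤ D) {d : ℕ} {T : Fin d → G} (hT : ∀ i, T i ∈ S)
    {P : Fin d → ℤ[X]} (hP : ∀ i, (P i).natDegree ≤ D) :
    (fun n => (List.ofFn fun i => T i ^ (P i).eval n).prod) ∈ PG S D hD := by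
  have h1 : (List.ofFn fun i => fun n : ℤ => T i ^ (P i).eval n).prod ∈ PG S D hD := by
    apply Subgroup.list_prod_mem
    intro x hx
    rw [List.mem_ofFn] at hx
    obtain ⟨i, rfl⟩ := hx
    exact pow_mem' hD (hT i) (hP i)
  have e : (fun n => (List.ofFn fun i => T i ^ (P i).eval n).prod) =
      (List.ofFn fun i => fun n : ℤ => T i ^ (P i).eval n).prod := by
    funext n
    have h2 := map_list_prod (Pi.evalMonoidHom (fun _ : ℤ => G) n)
      (List.ofFn fun i => fun n : ℤ => T i ^ (P i).eval n)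
    rw [List.map_ofFn] at h2
    exact h2.symm
  rw [e]
  exact h1

end words

noncomputable section skew

variable {X Y : Type} [CommGroup X]

theorem app_inv_self {Z : Type} (g : Equiv.Perm Z) (z : Z) : g (g⁻¹ z) = z :=
  Equiv.apply_symm_apply g z

/-- translations of the fibres -/
def tr (a : X) : Equiv.Perm (Y × X) where
  toFun z := (z.1, z.2 * a)
  invFun z := (z.1, z.2 * a⁻¹)
  left_inv z := by simp
  right_inv z := by simp

/-- `g` is a skew product with the automorphism `α` -/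
def Lin (g : Equiv.Perm (Y × X)) (α : MulAut X) : Prop :=
  ∃ (s : Equiv.Perm Y) (w : Y → X), ∀ y x, g (y, x) = (s y, α x * w y)

theorem Lin.one : Lin (1 : Equiv.Perm (Y × X)) 1 := ⟨1, fun _ => 1, fun y x => by simp⟩

theorem Lin.tr (a : X) : Lin (NU.tr a : Equiv.Perm (Y × X)) 1 :=
  ⟨1, fun _ => a, fun _ _ => rfl⟩

theorem Lin.mul {g g' : Equiv.Perm (Y × X)} {α α' : MulAut X} (h : Lin g α) (h' : Lin g' α') :
    Lin (g * g') (α * α') := by
  obtain ⟨s, w, h⟩ := h
  obtain ⟨s', w', h'⟩ := h'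
  refine ⟨s * s', fun y => α (w' y) * w (s' y), fun y x => ?_⟩
  rw [Equiv.Perm.mul_apply, h', h, map_mul, mul_assoc]
  rfl

theorem Lin.inv {g : Equiv.Perm (Y × X)} {α : MulAut X} (h : Lin g α) : Lin g⁻¹ α⁻¹ := by
  obtain ⟨s, w, h⟩ := h
  refine ⟨s⁻¹, fun y => (α⁻¹ (w (s⁻¹ y)))⁻¹, fun y x => ?_⟩
  apply g.injective
  rw [app_inv_self, h, app_inv_self, map_mul, map_inv,
    MulAut.apply_inv_self, MulAut.apply_inv_self, inv_mul_cancel_right]

theorem Lin.zpow {g : Equiv.Perm (Y × X)} {α : MulAut X} (h : Lin g α) (n : ℤ) :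
    Lin (g ^ n) (α ^ n) := by
  induction n with
  | zero => exact Lin.one
  | succ n ih =>
    rw [zpow_add_one, zpow_add_one]
    exact ih.mul h
  | pred n ih =>
    rw [zpow_sub_one, zpow_sub_one]
    exact ih.mul h.inv

theorem Lin.conj {g : Equiv.Perm (Y × X)} {α : MulAut X} (h : Lin g α) (a : X) :
    g * NU.tr a * g⁻¹ = NU.tr (α a) := by
  obtain ⟨s, w, h⟩ := h
  rw [mul_inv_eq_iff_eq_mul]
  ext1 ⟨y, x⟩
  rw [Equiv.Perm.mul_apply, Equiv.Perm.mul_apply]
  show g (y, x * a) = ((g (y, x)).1, (g (y, x)).2 * α a)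
  rw [h, h, map_mul, mul_right_comm]

theorem Lin.comm {g : Equiv.Perm (Y × X)} {α : MulAut X} (h : Lin g α) (a : X) :
    ⁅g, (NU.tr a : Equiv.Perm (Y × X))⁆ = NU.tr (α a * a⁻¹) := by
  rw [commutatorElement_def, h.conj]
  ext1 z
  show (z.1, z.2 * a⁻¹ * α a) = (z.1, z.2 * (α a * a⁻¹))
  rw [mul_assoc, mul_comm a⁻¹]

theorem Lin.shift {g : Equiv.Perm (Y × X)} {α : MulAut X} (h : Lin g α) (z : Y × X) (a : X) :
    g (z.1, z.2 * a) = ((g z).1, (g z).2 * α a) := by
  obtain ⟨s, w, h⟩ := h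
  obtain ⟨y, x⟩ := z
  rw [h, h, map_mul, mul_right_comm]

/-- the standing assumptions -/
structure Nl (S : Subgroup (Equiv.Perm (Y × X))) (c : ℕ) : Prop where
  tr : ∀ a : X, NU.tr a ∈ S
  lin : ∀ g ∈ S, ∃ α, Lin g α
  nil : Ga S (c + 1) = ⊥
  pos : 1 ≤ c

/-- levels of homomorphisms -/
def TH (S : Subgroup (Equiv.Perm (Y × X))) (c l : ℕ) (θ : X →* Circle) : Prop :=
  ∀ a : X, NU.tr a ∈ Ga S (c - l + 1) → θ a = 1

variable {S : Subgroup (Equiv.Perm (Y × X))} {c : ℕ}

theorem TH_zero (h : Nl S c) (θ : X →* Circle) (hY : Nonempty Y) : TH S c 0 θ := by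
  intro a ha
  rw [Nat.sub_zero, h.nil, Subgroup.mem_bot] at ha
  obtain ⟨y⟩ := hY
  have h1 : (NU.tr a : Equiv.Perm (Y × X)) (y, 1) = (y, 1) := by rw [ha]; rfl
  have h2 : (1 : X) * a = 1 := (Prod.mk.inj h1).2
  rw [one_mul] at h2
  rw [h2, map_one]

theorem TH_top (h : Nl S c) {θ : X →* Circle} (hθ : TH S c c θ) (a : X) : θ a = 1 := by
  apply hθ
  rw [Nat.sub_self, zero_add, Ga_low S le_rfl]
  exact h.tr a

theorem TH_anti {l l' : ℕ} (hl : l' ≤ l) {θ : X →* Circle} (hθ : TH S c l θ) : TH S c l' θ :=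
  fun a ha => hθ a (Ga_anti S (by omega) ha)

/-- the new homomorphism -/
def dl (θ : X →* Circle) (α : MulAut X) : X →* Circle where
  toFun a := θ (α a * a⁻¹)
  map_one' := by simp
  map_mul' a b := by
    rw [← map_mul]
    congr 1
    rw [map_mul, mul_inv, mul_mul_mul_comm]

theorem TH_dl {l l' k : ℕ} (hl : l ≤ c) (hl' : l' ≤ l + k) {θ : X →* Circle}
    (hθ : TH S c l θ) {g : Equiv.Perm (Y × X)} (hg : g ∈ Ga S k) {α : MulAut X} (hα : Lin g α) :
    TH S c l' (dl θ α) := by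
  intro a ha
  show θ (α a * a⁻¹) = 1
  apply hθ
  rw [← hα.comm]
  exact Ga_anti S (by omega) (Ga_comm S k (c - l' + 1)
    (Subgroup.commutator_mem_commutator hg ha))

theorem TH_comp {l : ℕ} {θ : X →* Circle} (hθ : TH S c l θ) {g : Equiv.Perm (Y × X)}
    (hg : g ∈ S) {α : MulAut X} (hα : Lin g α) : TH S c l (θ.comp (α : X →* X)) := by
  intro a ha
  show θ (α a) = 1
  apply hθ
  rw [← hα.conj]
  exact Ga_conj S hg ha

/-- functions of level `l` -/
def NL (S : Subgroup (Equiv.Perm (Y × X))) (c l : ℕ) : Subgroup (Y × X → Circle) where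
  carrier := {v | ∃ θ : X →* Circle, TH S c l θ ∧ ∃ w : Y → Circle, ∀ y x, v (y, x) = θ x * w y}
  mul_mem' := by
    rintro v v' ⟨θ, hθ, w, hw⟩ ⟨θ', hθ', w', hw'⟩
    refine ⟨θ * θ', fun a ha => ?_, fun y => w y * w' y, fun y x => ?_⟩
    · rw [MonoidHom.mul_apply, hθ a ha, hθ' a ha, one_mul]
    · rw [Pi.mul_apply, hw, hw', MonoidHom.mul_apply, mul_mul_mul_comm]
  one_mem' := ⟨1, fun _ _ => rfl, fun _ => 1, fun _ _ => by simp⟩
  inv_mem' := by
    rintro v ⟨θ, hθ, w, hw⟩
    refine ⟨θ⁻¹, fun a ha => ?_, fun y => (w y)⁻¹, fun y x => ?_⟩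
    · rw [MonoidHom.inv_apply, hθ a ha, inv_one]
    · rw [Pi.inv_apply, hw, MonoidHom.inv_apply, mul_inv]

theorem NL_anti {l l' : ℕ} (hl : l' ≤ l) : NL S c l ≤ NL S c l' := by
  rintro v ⟨θ, hθ, w, hw⟩
  exact ⟨θ, TH_anti hl hθ, w, hw⟩

variable (X Y) in
/-- maps which fix the base -/
def G0 : Subgroup (Equiv.Perm (Y × X)) where
  carrier := {g | ∀ z, (g z).1 = z.1}
  mul_mem' := by
    intro a b ha hb z
    rw [Equiv.Perm.mul_apply, ha, hb]
  one_mem' := fun _ => rfl
  inv_mem' := by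
    intro a ha z
    have h1 := ha (a⁻¹ z)
    rw [app_inv_self] at h1
    exact h1.symm

theorem mem_G0 {g : Equiv.Perm (Y × X)} : g ∈ G0 X Y ↔ ∀ z, (g z).1 = z.1 := Iff.rfl

/-- the action on functions -/
def act (Z : Type) : Equiv.Perm Z →* MulAut (Z → Circle) where
  toFun g :=
    { toFun := fun v z => v (g⁻¹ z)
      invFun := fun v z => v (g z)
      left_inv := fun v => by
        funext z
        simp
      right_inv := fun v => by
        funext z
        simp
      map_mul' := fun _ _ => rfl }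
  map_one' := by
    ext v z
    rfl
  map_mul' g h := by
    ext v z
    simp only [mul_inv_rev]
    rfl

theorem act_apply {Z : Type} (g : Equiv.Perm Z) (v : Z → Circle) (z : Z) :
    act Z g v z = v (g⁻¹ z) := rfl

/-- the filtration of the functions -/
def MF (S : Subgroup (Equiv.Perm (Y × X))) (c D i : ℕ) : Subgroup (Y × X → Circle) :=
  if i ≤ 2 * c * D then NL S c (min (cd D i) c) else ⊥

/-- the filtration of the maps -/
def GF (S : Subgroup (Equiv.Perm (Y × X))) (D i : ℕ) : Subgroup (Equiv.Perm (Y × X)) :=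
  Fd S D i ⊓ G0 X Y

theorem ok (h : Nl S c) {D : ℕ} (hD : 1 ≤ D) : Ok (act (Y × X)) (MF S c D) (GF S D) := by
  refine ⟨fun i => ?_, fun i => ?_, fun i j => ?_, fun i j g hg v hv => ?_⟩
  · unfold MF
    by_cases h1 : i + 1 ≤ 2 * c * D
    · rw [if_pos h1, if_pos (by omega)]
      exact NL_anti (min_le_min_right c (cd_mono hD (Nat.le_succ i)))
    · rw [if_neg h1]
      exact bot_le
  · exact inf_le_inf_right _ (Fd_anti S hD (Nat.le_succ i))
  · refine le_inf ?_ ?_
    · exact (Subgroup.commutator_mono inf_le_left inf_le_left).trans (Fd_comm S hD i j)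
    · refine (Subgroup.commutator_mono inf_le_right inf_le_right).trans ?_
      rw [Subgroup.commutator_le]
      intro a ha b hb
      rw [commutatorElement_def]
      exact mul_mem (mul_mem (mul_mem ha hb) (inv_mem ha)) (inv_mem hb)
  · by_cases hi : i ≤ 2 * c * D
    swap
    · unfold MF at hv
      rw [if_neg hi, Subgroup.mem_bot] at hv
      rw [hv, map_one, inv_one, mul_one]
      exact one_mem _
    unfold MF at hv
    rw [if_pos hi] at hv
    obtain ⟨θ, hθ, w, hw⟩ := hv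
    by_cases hj : c < cd D j
    · have h1 : g = 1 := by
        have h2 : g ∈ Ga S (c + 1) := Ga_anti S hj hg.1
        rwa [h.nil, Subgroup.mem_bot] at h2
      rw [h1, map_one, MulAut.one_apply, mul_inv_cancel]
      exact one_mem _
    have hgi : g⁻¹ ∈ Ga S (cd D j) := inv_mem hg.1
    have hg0 : g⁻¹ ∈ G0 X Y := inv_mem hg.2
    obtain ⟨α, hα⟩ := h.lin _ (Ga_le S _ hgi)
    obtain ⟨s, w', hs⟩ := id hα
    have hs1 : ∀ y, s y = y := fun y => by
      have h1 := hg0 (y, 1)
      rw [hs] at h1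
      exact h1
    have hval : ∀ y x, (act (Y × X) g v * v⁻¹) (y, x) = dl θ α x * θ (w' y) := by
      intro y x
      rw [Pi.mul_apply, Pi.inv_apply, act_apply, hs, hs1, hw, hw]
      show θ (α x * w' y) * w y * (θ x * w y)⁻¹ = θ (α x * x⁻¹) * θ (w' y)
      rw [map_mul, map_mul, map_inv, mul_inv, mul_mul_mul_comm _ (w y), mul_inv_cancel, mul_one,
        mul_right_comm]
    by_cases hij : i + j ≤ 2 * c * D
    · unfold MF
      rw [if_pos hij]
      refine ⟨dl θ α, TH_dl (min_le_right _ _) ?_ hθ hgi hα, fun y => θ (w' y), hval⟩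
      have := cd_add hD i j
      omega
    · have hjc : j ≤ c * D := (cd_le_iff hD).1 (by omega)
      have hic : c < cd D i := by
        by_contra hcon
        have := (cd_le_iff hD).1 (not_lt.1 hcon)
        apply hij
        rw [mul_assoc, two_mul]
        omega
      rw [min_eq_right (by omega)] at hθ
      have h1 : ∀ a, θ a = 1 := TH_top h hθ
      have h2 : act (Y × X) g v * v⁻¹ = 1 := by
        funext ⟨y, x⟩
        rw [hval]
        show θ (α x * x⁻¹) * θ (w' y) = 1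
        rw [h1, h1, one_mul]
      rw [h2]
      exact one_mem _

theorem pol_v (h : Nl S c) {D : ℕ} (hD : 1 ≤ D) {t : Equiv.Perm (Y × X)} (ht : t ∈ S)
    {α : MulAut X} (hα : Lin t α) (k : ℕ) : ∀ (s : ℕ) (θ : X →* Circle),
    TH S c (min s c) θ →
    (fun n : ℤ => (SemidirectProduct.inl (fun z : Y × X => θ ((α ^ n) z.2)) :
      (Y × X → Circle) ⋊[act (Y × X)] Equiv.Perm (Y × X))) ∈ Pol ℤ (Qf (ok h hD)) k s := by
  have hval : ∀ (s : ℕ) (θ : X →* Circle), TH S c (min s c) θ → ∀ n : ℤ,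
      (fun z : Y × X => θ ((α ^ n) z.2)) ∈ MF S c D s := by
    intro s θ hθ n
    have h1 := TH_comp hθ (zpow_mem ht n) (hα.zpow n)
    unfold MF
    split_ifs with hs
    · refine ⟨_, TH_anti (min_le_min_right c (cd_le hD s)) h1, fun _ => 1, fun y x => ?_⟩
      rw [mul_one]
      rfl
    · have h2 : c ≤ s := by
        have : 1 ≤ c := h.pos
        have : c ≤ 2 * c * D := by nlinarith
        omega
      rw [min_eq_right h2] at h1
      rw [Subgroup.mem_bot]
      funext z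
      exact TH_top h h1 z.2
  induction k with
  | zero => exact fun s θ hθ n => ⟨hval s θ hθ n, one_mem _⟩
  | succ k ih =>
    intro s θ hθ
    refine ⟨fun n => ⟨hval s θ hθ n, one_mem _⟩, fun r => ?_⟩
    have h1 : TH S c (min (s + 1) c) (dl θ (α ^ r)) := by
      refine TH_dl (min_le_right _ _) (k := 1) (by omega) hθ (g := t ^ r) ?_ (hα.zpow r)
      rw [Ga_low S le_rfl]
      exact zpow_mem ht r
    have h2 := ih (s + 1) (dl θ (α ^ r)) h1
    have e : NU.D r (fun n : ℤ => (SemidirectProduct.inl (fun z : Y × X => θ ((α ^ n) z.2)) :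
        (Y × X → Circle) ⋊[act (Y × X)] Equiv.Perm (Y × X))) =
        fun n : ℤ => SemidirectProduct.inl (fun z : Y × X => dl θ (α ^ r) ((α ^ n) z.2)) := by
      funext n
      simp only [NU.D]
      rw [← map_inv, ← map_mul]
      congr 1
      funext z
      rw [Pi.mul_apply, Pi.inv_apply]
      show θ ((α ^ (n + r)) z.2) * (θ ((α ^ n) z.2))⁻¹ =
        θ ((α ^ r) ((α ^ n) z.2) * ((α ^ n) z.2)⁻¹)
      rw [map_mul, map_inv, add_comm n r, zpow_add, MulAut.mul_apply]
    rw [e]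
    exact h2

/-- **The phases are polynomial.** -/
theorem phase (h : Nl S c) {D : ℕ} (hD : 1 ≤ D) (hY : Nonempty Y) {t : Equiv.Perm (Y × X)}
    (ht : t ∈ S) {α : MulAut X} (hα : Lin t α) (θ : X →* Circle) {g : ℤ → Equiv.Perm (Y × X)}
    (hg : g ∈ PG S D hD) (hg0 : ∀ n, g n ∈ G0 X Y) (z : Y × X) (r : ℤ) :
    (NU.D r)^[2 * c * D + 1] (fun n : ℤ => θ ((α ^ n) (g n z).2)) = 1 := by
  have h1 : g ∈ PolS ℤ (GF S D) 0 := by
    have key : ∀ (k s : ℕ) (g : ℤ → Equiv.Perm (Y × X)), g ∈ Pol ℤ (Fd S D) k s →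
        (∀ n, g n ∈ G0 X Y) → g ∈ Pol ℤ (GF S D) k s := by
      intro k
      induction k with
      | zero => exact fun s g hg h0 n => ⟨hg n, h0 n⟩
      | succ k ih =>
        exact fun s g hg h0 => ⟨fun n => ⟨hg.1 n, h0 n⟩, fun r => ih _ _ (hg.2 r) fun n =>
          mul_mem (h0 _) (inv_mem (h0 _))⟩
    exact fun k => key k 0 g (hg k) hg0
  have h2 := pol_orbit (ok h hD) h1 (v := fun n z => θ ((α ^ n) z.2)) (fun k =>
    pol_v h hD ht hα k 0 θ (by rw [Nat.zero_min]; exact TH_zero h θ hY))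
  have h3 := pol_inl_it (ok h hD) h2 r (2 * c * D + 1)
  have h4 : ∀ (k : ℕ) (V : ℤ → (Y × X → Circle)) (n : ℤ),
      (NU.D r)^[k] (fun n => V n z) n = (NU.D r)^[k] V n z := by
    intro k
    induction k with
    | zero => exact fun V n => rfl
    | succ k ih =>
      intro V n
      rw [Function.iterate_succ_apply, Function.iterate_succ_apply]
      exact ih (NU.D r V) n
  funext n
  have h5 := h3 n
  unfold MF at h5
  rw [if_neg (by omega), Subgroup.mem_bot] at h5
  have h6 := h4 (2 * c * D + 1) (fun n => act (Y × X) (g n)⁻¹ fun z => θ ((α ^ n) z.2)) n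
  rw [h5] at h6
  have e : (fun n : ℤ => θ ((α ^ n) (g n z).2)) =
      fun n : ℤ => (act (Y × X) (g n)⁻¹ fun z => θ ((α ^ n) z.2)) z := by
    funext n
    rw [act_apply, inv_inv]
  rw [e]
  exact h6

end skew

end Pool.Agent.H71.NU
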