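import Mathlib

set_option autoImplicit false

/-! Characters of a compact abelian group separate points (Peter–Weyl for compact abelian groups);
proof by helper487 (lemma job 12891). -/

namespace Pool.Agent.H71.NU.LC

open Filter Topology
open scoped ComplexConjugate

noncomputable section

universe u


open MeasureTheory in
theorem chars_int {K : Type u} {H : Type*} [TopologicalSpace K] [CompactSpace K]
    [MeasurableSpace K] [BorelSpace K] [NormedAddCommGroup H] (μ : Measure K) [IsFiniteMeasure μ]
    {g : K → H} (hg : Continuous g) : Integrable g μ :=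
  hg.integrable_of_hasCompactSupport (HasCompactSupport.of_compactSpace _)

open MeasureTheory in
theorem chars_int2 {K H : Type u} [TopologicalSpace K] [CompactSpace K]
    [MeasurableSpace K] [BorelSpace K] [NormedAddCommGroup H] [NormedSpace ℂ H]
    (μ : Measure K) [IsFiniteMeasure μ] (φ : C(K, ℂ))
    {g : K → H} (hg : Continuous g) : Integrable (fun x => φ x • g x) μ :=
  chars_int μ (φ.continuous.smul hg)

open MeasureTheory in
/-- the operator of convolution by `φ` -/
def charsT {K H : Type u} [CommGroup K] [TopologicalSpace K] [CompactSpace K]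
    [MeasurableSpace K] [BorelSpace K]
    [NormedAddCommGroup H] [InnerProductSpace ℂ H] [CompleteSpace H]
    (μ : Measure K) [IsFiniteMeasure μ]
    (U : K → H →ₗᵢ[ℂ] H) (hc : ∀ f, Continuous fun a => U a f) (φ : C(K, ℂ)) : H →L[ℂ] H :=
  LinearMap.mkContinuous
    { toFun := fun f => ∫ x, φ x • U x f ∂μ
      map_add' := by
        intro f g
        have hi : ∀ f : H, Integrable (fun x => φ x • U x f) μ := fun f => chars_int2 μ φ (hc f)
        rw [← integral_add (hi f) (hi g)]
        simp only [map_add, smul_add]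
      map_smul' := by
        intro c f
        simp only [map_smul, RingHom.id_apply]
        rw [← integral_smul]
        congr 1
        funext x
        rw [smul_comm] }
    (‖φ‖ * μ.real Set.univ) (by
      intro f
      simp only [LinearMap.coe_mk, AddHom.coe_mk]
      refine (norm_integral_le_of_norm_le_const (C := ‖φ‖ * ‖f‖) ?_).trans (le_of_eq ?_)
      · refine Eventually.of_forall (fun x => ?_)
        rw [norm_smul, (U x).norm_map]
        gcongr
        exact φ.norm_coe_le_norm x
      · ring)

open MeasureTheory in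
theorem chars_T_apply {K H : Type u} [CommGroup K] [TopologicalSpace K] [CompactSpace K]
    [MeasurableSpace K] [BorelSpace K]
    [NormedAddCommGroup H] [InnerProductSpace ℂ H] [CompleteSpace H]
    (μ : Measure K) [IsFiniteMeasure μ]
    (U : K → H →ₗᵢ[ℂ] H) (hc : ∀ f, Continuous fun a => U a f) (φ : C(K, ℂ)) (f : H) :
    charsT μ U hc φ f = ∫ x, φ x • U x f ∂μ := rfl

open MeasureTheory in
theorem chars_T_norm {K H : Type u} [CommGroup K] [TopologicalSpace K] [CompactSpace K]
    [MeasurableSpace K] [BorelSpace K]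
    [NormedAddCommGroup H] [InnerProductSpace ℂ H] [CompleteSpace H]
    (μ : Measure K) [IsFiniteMeasure μ]
    (U : K → H →ₗᵢ[ℂ] H) (hc : ∀ f, Continuous fun a => U a f) (φ : C(K, ℂ)) :
    ‖charsT μ U hc φ‖ ≤ ‖φ‖ * μ.real Set.univ :=
  LinearMap.mkContinuous_norm_le _ (by positivity) _

open MeasureTheory in
theorem chars_T_sub {K H : Type u} [CommGroup K] [TopologicalSpace K] [CompactSpace K]
    [MeasurableSpace K] [BorelSpace K]
    [NormedAddCommGroup H] [InnerProductSpace ℂ H] [CompleteSpace H]
    (μ : Measure K) [IsFiniteMeasure μ]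
    (U : K → H →ₗᵢ[ℂ] H) (hc : ∀ f, Continuous fun a => U a f) (φ ψ : C(K, ℂ)) :
    charsT μ U hc φ - charsT μ U hc ψ = charsT μ U hc (φ - ψ) := by
  ext f
  rw [_root_.sub_apply, chars_T_apply, chars_T_apply, chars_T_apply,
    ← integral_sub (chars_int2 μ φ (hc f)) (chars_int2 μ ψ (hc f))]
  congr 1
  funext x
  rw [ContinuousMap.sub_apply, sub_smul]

open MeasureTheory in
theorem chars_T_cont {K H : Type u} [CommGroup K] [TopologicalSpace K] [CompactSpace K]
    [MeasurableSpace K] [BorelSpace K]
    [NormedAddCommGroup H] [InnerProductSpace ℂ H] [CompleteSpace H]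
    (μ : Measure K) [IsFiniteMeasure μ]
    (U : K → H →ₗᵢ[ℂ] H) (hc : ∀ f, Continuous fun a => U a f) :
    Continuous (charsT μ U hc) := by
  refine (LipschitzWith.of_dist_le_mul (K := (μ.real Set.univ).toNNReal) (fun φ ψ => ?_)).continuous
  rw [dist_eq_norm, dist_eq_norm, chars_T_sub, Real.coe_toNNReal _ (by positivity), mul_comm]
  exact chars_T_norm μ U hc _

/-- abstract version: a strongly continuous unitary representation in which `k` acts
non-trivially -/
theorem chars_abs {K H : Type u} [CommGroup K] [TopologicalSpace K] [IsTopologicalGroup K]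
    [CompactSpace K] [T2Space K] [NormedAddCommGroup H] [InnerProductSpace ℂ H] [CompleteSpace H]
    (U : K → H →ₗᵢ[ℂ] H) (h1 : U 1 = LinearIsometry.id) (hm : ∀ a b, U (a * b) = (U a).comp (U b))
    (hc : ∀ f, Continuous fun a => U a f) (k : K) (f0 : H) (hk : U k f0 ≠ f0) :
    ∃ χ : ContinuousMonoidHom K Circle, χ k ≠ 1 := by
  classical
  letI : MeasurableSpace K := borel K
  haveI : BorelSpace K := ⟨rfl⟩
  let μ : MeasureTheory.Measure K := MeasureTheory.Measure.haar
  haveI : μ.IsHaarMeasure := by dsimp only [μ]; infer_instance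
  haveI : μ.Regular := by dsimp only [μ]; infer_instance
  haveI : MeasureTheory.IsFiniteMeasure μ := inferInstance
  haveI : μ.IsInvInvariant := inferInstance
  -- facts on `U`
  have hmul : ∀ a b f, U a (U b f) = U (a * b) f := by
    intro a b f; rw [hm]; rfl
  have hone : ∀ f, U 1 f = f := by intro f; rw [h1]; rfl
  have hcomm : ∀ a b f, U a (U b f) = U b (U a f) := by
    intro a b f; rw [hmul, hmul, mul_comm]
  have hadj : ∀ a f g, inner ℂ (U a f) g = inner ℂ f (U a⁻¹ g) := by
    intro a f g
    have : g = U a (U a⁻¹ g) := by rw [hmul, mul_inv_cancel, hone]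
    conv_lhs => rw [this]
    exact (U a).inner_map_map _ _
  let V : K → H →L[ℂ] H := fun a => (U a).toContinuousLinearMap
  have hV : ∀ a f, V a f = U a f := fun a f => rfl
  have hVstar : ∀ a, star (V a) = V a⁻¹ := by
    intro a
    rw [ContinuousLinearMap.star_eq_adjoint]
    symm
    rw [ContinuousLinearMap.eq_adjoint_iff]
    intro x y
    rw [hV, hV, hadj, inv_inv]
  let T : C(K, ℂ) → H →L[ℂ] H := charsT μ U hc
  have hT : ∀ φ f, T φ f = ∫ x, φ x • U x f ∂μ := fun φ f => rfl
  have hTcont : Continuous T := chars_T_cont μ U hc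
  have hVT : ∀ a φ, V a * T φ = T φ * V a := by
    intro a φ
    ext f
    show V a (T φ f) = T φ (V a f)
    rw [hT, hT, ← ContinuousLinearMap.integral_comp_comm _ (chars_int2 μ φ (hc f))]
    congr 1
    funext x
    rw [map_smul, hV, hV, hcomm]
  -- translate
  let L : K → C(K, ℂ) → C(K, ℂ) := fun a φ => ⟨fun x => φ (a⁻¹ * x), by fun_prop⟩
  have hL : ∀ φ, Continuous (fun a => L a φ) := by
    intro φ
    let g : C(K × K, ℂ) := ⟨fun p => φ (p.1⁻¹ * p.2), by fun_prop⟩
    exact g.curry.continuous
  have hVTL : ∀ a φ, V a * T φ = T (L a φ) := by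
    intro a φ
    ext f
    show V a (T φ f) = T (L a φ) f
    rw [hT, hT, ← ContinuousLinearMap.integral_comp_comm _ (chars_int2 μ φ (hc f))]
    rw [← MeasureTheory.integral_mul_left_eq_self (fun x => (L a φ) x • U x f) a]
    congr 1
    funext x
    rw [map_smul, hV, hmul]
    congr 1
    show φ x = φ (a⁻¹ * (a * x))
    rw [inv_mul_cancel_left]
  -- choice of `φ`
  have hδ : 0 < ‖U k f0 - f0‖ := norm_pos_iff.2 (sub_ne_zero.2 hk)
  set δ := ‖U k f0 - f0‖ with hδdef
  have hopen : {x : K | ‖U x f0 - f0‖ < δ / 4} ∈ 𝓝 (1 : K) := by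
    have hct : Continuous (fun x => ‖U x f0 - f0‖) := ((hc f0).sub continuous_const).norm
    refine (isOpen_lt hct continuous_const).mem_nhds ?_
    show ‖U 1 f0 - f0‖ < δ / 4
    rw [hone, sub_self, norm_zero]; positivity
  obtain ⟨W, hWsub, hWo, hW1⟩ := mem_nhds_iff.1 hopen
  obtain ⟨p, hp0, hp1, hp01⟩ := exists_continuous_zero_one_of_isClosed
    (s := Wᶜ) (t := {(1:K)}) hWo.isClosed_compl isClosed_singleton
    (by rw [Set.disjoint_singleton_right]; simpa using hW1)
  let q : K → ℝ := fun x => p x * p x⁻¹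
  have hqc : Continuous q := by dsimp only [q]; fun_prop
  have hq0 : ∀ x, 0 ≤ q x := fun x => mul_nonneg (hp01 x).1 (hp01 x⁻¹).1
  have hq1 : q 1 ≠ 0 := by
    have := hp1 (Set.mem_singleton (1:K))
    simp only [q, inv_one]
    rw [this]; simp
  have hqinv : ∀ x, q x⁻¹ = q x := by intro x; simp only [q, inv_inv]; ring
  have hqW : ∀ x, q x ≠ 0 → ‖U x f0 - f0‖ < δ / 4 := by
    intro x hx
    have : x ∈ W := by
      by_contra hxW
      apply hx
      have := hp0 (show x ∈ Wᶜ from hxW)
      simp only [q]
      rw [this]; simp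
    exact hWsub this
  let φ : C(K, ℂ) := ⟨fun x => (q x : ℂ), by fun_prop⟩
  have hφ : ∀ x, φ x = (q x : ℂ) := fun x => rfl
  have hTstar : star (T φ) = T φ := by
    rw [ContinuousLinearMap.star_eq_adjoint]
    symm
    rw [ContinuousLinearMap.eq_adjoint_iff]
    intro f g
    have e1 : inner ℂ f (T φ g) = ∫ x, (q x : ℂ) * inner ℂ f (U x g) ∂μ := by
      rw [hT, ← integral_inner (chars_int2 μ φ (hc g))]
      congr 1
      funext x
      rw [hφ, inner_smul_right]
    have e2 : inner ℂ g (T φ f) = ∫ x, (q x : ℂ) * inner ℂ g (U x f) ∂μ := by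
      rw [hT, ← integral_inner (chars_int2 μ φ (hc f))]
      congr 1
      funext x
      rw [hφ, inner_smul_right]
    rw [← inner_conj_symm, e2, e1, ← integral_conj,
      ← MeasureTheory.integral_inv_eq_self _ μ]
    congr 1
    funext x
    rw [map_mul, Complex.conj_ofReal, inner_conj_symm, hqinv, hadj, inv_inv]
  -- the algebra
  let S : Set (H →L[ℂ] H) := Set.range V ∪ {T φ}
  have hScomm : ∀ a ∈ S, ∀ b ∈ S, a * b = b * a := by
    rintro a (⟨x, rfl⟩ | rfl) b (⟨y, rfl⟩ | rfl)
    · ext f
      exact hcomm x y f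
    · exact hVT x φ
    · exact (hVT y φ).symm
    · rfl
  have hSstar : ∀ a ∈ S, star a ∈ S := by
    rintro a (⟨x, rfl⟩ | rfl)
    · left; exact ⟨x⁻¹, (hVstar x).symm⟩
    · right; exact hTstar
  have hcomA : IsMulCommutative (StarAlgebra.adjoin ℂ S) :=
    StarAlgebra.isMulCommutative_adjoin ℂ hScomm (fun a ha b hb => hScomm a ha _ (hSstar b hb))
  let A : StarSubalgebra ℂ (H →L[ℂ] H) := (StarAlgebra.adjoin ℂ S).topologicalClosure
  haveI hAc : IsClosed (A : Set (H →L[ℂ] H)) :=
    StarSubalgebra.isClosed_topologicalClosure _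
  have hAmul : ∀ x y : A, x * y = y * x := by
    intro x y
    exact ((StarAlgebra.adjoin ℂ S).commRingTopologicalClosure
      (fun x y => hcomA.is_comm.comm x y)).mul_comm x y
  letI : CommCStarAlgebra A := { StarSubalgebra.cstarAlgebra A with mul_comm := hAmul }
  have hSA : ∀ a ∈ S, a ∈ A := fun a ha =>
    (StarSubalgebra.le_topologicalClosure _) (StarAlgebra.subset_adjoin ℂ S ha)
  let v : K → A := fun a => ⟨V a, hSA _ (Or.inl ⟨a, rfl⟩)⟩
  let t : A := ⟨T φ, hSA _ (Or.inr rfl)⟩
  have hvmul : ∀ a b, v (a * b) = v a * v b := by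
    intro a b
    apply Subtype.ext
    ext f
    exact (hmul a b f).symm
  have hv1 : v 1 = 1 := by
    apply Subtype.ext
    ext f
    exact hone f
  have hvstar : ∀ a, star (v a) = v a⁻¹ := by
    intro a
    apply Subtype.ext
    exact hVstar a
  have hvtcont : Continuous (fun a => v a * t) := by
    refine Continuous.subtype_mk ?_ _
    have : (fun a => V a * T φ) = fun a => T (L a φ) := by
      funext a; exact hVTL a φ
    show Continuous (fun a => V a * T φ)
    rw [this]
    exact hTcont.comp (hL φ)
  -- nonvanishing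
  have hne : t - v k * t ≠ 0 := by
    intro h0
    have h1' : ∀ f, T φ f = U k (T φ f) := by
      intro f
      have := congrArg (fun z : A => (z : H →L[ℂ] H) f) (sub_eq_zero.1 h0)
      exact this
    let c : ℝ := ∫ x, q x ∂μ
    have hcpos : 0 < c := hqc.integral_pos_of_hasCompactSupport_nonneg_nonzero
      (HasCompactSupport.of_compactSpace _) hq0 hq1
    have hdiff : ‖T φ f0 - (c : ℂ) • f0‖ ≤ c * (δ / 4) := by
      have e : T φ f0 - (c : ℂ) • f0 = ∫ x, φ x • (U x f0 - f0) ∂μ := by
        rw [hT]
        simp only [smul_sub]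
        rw [MeasureTheory.integral_sub (chars_int2 μ φ (hc f0)) (chars_int2 μ φ continuous_const)]
        congr 1
        rw [integral_smul_const]
        congr 1
        simp only [hφ]
        exact (integral_ofReal (𝕜 := ℂ)).symm
      rw [e]
      refine (MeasureTheory.norm_integral_le_integral_norm _).trans ?_
      have e2 : c * (δ / 4) = ∫ x, q x * (δ / 4) ∂μ := by
        rw [MeasureTheory.integral_mul_const]
      rw [e2]
      refine MeasureTheory.integral_mono ?_ ?_ ?_
      · exact (chars_int2 μ φ ((hc f0).sub continuous_const)).norm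
      · exact chars_int μ (hqc.mul continuous_const)
      · intro x
        show ‖φ x • (U x f0 - f0)‖ ≤ q x * (δ / 4)
        rw [norm_smul, hφ, Complex.norm_real, Real.norm_of_nonneg (hq0 x)]
        by_cases hx : q x = 0
        · rw [hx]; simp
        · exact mul_le_mul_of_nonneg_left (hqW x hx).le (hq0 x)
    have h2' : c * δ ≤ 2 * (c * (δ / 4)) := by
      have e3 : (c : ℂ) • (U k f0 - f0) =
          (T φ f0 - (c : ℂ) • f0) - U k (T φ f0 - (c : ℂ) • f0) := by
        rw [map_sub, map_smul, ← h1', smul_sub]; abel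
      have e4 : ‖(c : ℂ) • (U k f0 - f0)‖ = c * δ := by
        rw [norm_smul, Complex.norm_real, Real.norm_of_nonneg hcpos.le]
      rw [← e4, e3]
      refine (norm_sub_le _ _).trans ?_
      rw [(U k).norm_map]
      linarith
    nlinarith [mul_pos hcpos hδ]
  -- the character
  obtain ⟨ω, hω⟩ : ∃ ω : WeakDual.characterSpace ℂ A, ω (t - v k * t) ≠ 0 := by
    by_contra hcon
    push Not at hcon
    apply hne
    apply (gelfandTransform_isometry A).injective
    rw [map_zero]
    ext ω
    exact hcon ω
  have hωt : ω t ≠ 0 ∧ ω (v k) ≠ 1 := by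
    rw [map_sub, map_mul] at hω
    constructor
    · intro h; apply hω; rw [h]; simp
    · intro h; apply hω; rw [h]; simp
  have hωn : ∀ a, ‖ω (v a)‖ = 1 := by
    intro a
    have e1 : ω (v a) * ω (v a⁻¹) = 1 := by
      rw [← map_mul, ← hvmul, mul_inv_cancel, hv1, map_one]
    rw [← hvstar, map_star, RCLike.star_def, Complex.mul_conj, Complex.normSq_eq_norm_sq] at e1
    have e2 : ‖ω (v a)‖ ^ 2 = 1 := by exact_mod_cast e1
    exact (pow_eq_one_iff_of_nonneg (norm_nonneg _) (by norm_num)).1 e2
  have hωcont : Continuous (fun a => ω (v a)) := by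
    have e1 : (fun a => ω (v a)) = fun a => ω (v a * t) / ω t := by
      funext a
      rw [map_mul, mul_div_cancel_right₀ _ hωt.1]
    rw [e1]
    exact ((map_continuous ω).comp hvtcont).div_const _
  refine ⟨⟨⟨⟨fun a => ⟨ω (v a), mem_sphere_zero_iff_norm.2 (hωn a)⟩, ?_⟩, ?_⟩, ?_⟩, ?_⟩
  · apply Subtype.ext
    show ω (v 1) = 1
    rw [hv1, map_one]
  · intro a b
    apply Subtype.ext
    show ω (v (a * b)) = ω (v a) * ω (v b)
    rw [hvmul, map_mul]
  · exact Continuous.subtype_mk hωcont _
  · intro h
    apply hωt.2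
    exact congrArg Subtype.val h

/-- continuous characters separate the points of a compact Hausdorff abelian group -/
theorem chars {K : Type u} [CommGroup K] [TopologicalSpace K] [IsTopologicalGroup K]
    [CompactSpace K] [T2Space K] (k : K) (hk : k ≠ 1) :
    ∃ χ : ContinuousMonoidHom K Circle, χ k ≠ 1 := by
  classical
  letI : MeasurableSpace K := borel K
  haveI : BorelSpace K := ⟨rfl⟩
  let μ : MeasureTheory.Measure K := MeasureTheory.Measure.haar
  haveI : μ.IsHaarMeasure := by dsimp only [μ]; infer_instance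
  haveI : μ.Regular := by dsimp only [μ]; infer_instance
  haveI : MeasureTheory.IsFiniteMeasure μ := inferInstance
  have hmp : ∀ a : K, MeasureTheory.MeasurePreserving (fun x => a * x) μ μ := fun a =>
    MeasureTheory.measurePreserving_mul_left μ a
  let U : K → MeasureTheory.Lp ℂ 2 μ →ₗᵢ[ℂ] MeasureTheory.Lp ℂ 2 μ := fun a =>
    MeasureTheory.Lp.compMeasurePreservingₗᵢ ℂ (fun x => a * x) (hmp a)
  have hU : ∀ a f, U a f = MeasureTheory.Lp.compMeasurePreserving (fun x => a * x) (hmp a) f :=
    fun a f => rfl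
  obtain ⟨p, hp0, hp1, hp01⟩ := exists_continuous_zero_one_of_isClosed
    (s := {(1:K)}) (t := {k}) isClosed_singleton isClosed_singleton
    (by rw [Set.disjoint_singleton]; exact fun h => hk h.symm)
  have hpc : Continuous (fun x => (p x : ℂ)) := by fun_prop
  have hpm : MeasureTheory.MemLp (fun x => (p x : ℂ)) 2 μ :=
    hpc.memLp_of_hasCompactSupport (HasCompactSupport.of_compactSpace _)
  refine chars_abs U ?_ ?_ ?_ k (hpm.toLp _) ?_
  · ext1 f
    rw [hU]
    have : (fun x : K => 1 * x) = id := by funext x; simp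
    have h2 := MeasureTheory.Lp.compMeasurePreserving_id_apply (μb := μ) f
    simp only [one_mul]
    exact h2
  · intro a b
    ext1 f
    show U (a * b) f = U a (U b f)
    rw [hU, hU, hU,
      ← MeasureTheory.Lp.compMeasurePreserving_comp_apply]
    congr 2
    funext x
    simp only [Function.comp]
    rw [← mul_assoc, mul_comm a b]
  · intro f
    simp only [hU]
    let g : C(K × K, K) := ⟨fun p => p.1 * p.2, by fun_prop⟩
    exact Continuous.compMeasurePreservingLp (f := fun _ : K => f) (g := fun a => g.curry a)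
      continuous_const g.curry.continuous hmp (by norm_num)
  · intro h
    rw [hU, MeasureTheory.Lp.toLp_compMeasurePreserving, MeasureTheory.MemLp.toLp_eq_toLp_iff] at h
    have h2 : (fun x => (p (k * x) : ℂ)) = fun x => (p x : ℂ) := by
      refine (Continuous.ae_eq_iff_eq μ ?_ hpc).1 h
      fun_prop
    have h3 := congrFun h2 1
    simp only [mul_one] at h3
    have h4 := hp0 (Set.mem_singleton (1:K))
    have h5 := hp1 (Set.mem_singleton k)
    rw [h4, h5] at h3
    simp at h3

end

end Pool.Agent.H71.NU.LC
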