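import Pool.Agent.H71.NU.Chars
import Pool.Agent.H71.WW.Clos

/-!
# Density of trigonometric polynomials
-/

set_option autoImplicit false
set_option linter.unusedSectionVars false

open Filter Topology MeasureTheory
open scoped ComplexConjugate ENNReal

noncomputable section

namespace Pool.Agent.H71.NU

open Pool.Agent.H71.WW (BM)

universe u

section tp

variable {X : Type u} [CommGroup X] [TopologicalSpace X]

/-- trigonometric polynomials -/
def TP (X : Type u) [CommGroup X] [TopologicalSpace X] : Submodule ℂ (X → ℂ) :=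
  Submodule.span ℂ {f | ∃ χ : X →ₜ* Circle, f = fun x => (χ x : ℂ)}

theorem chi_mem (χ : X →ₜ* Circle) : (fun x => (χ x : ℂ)) ∈ TP X :=
  Submodule.subset_span ⟨χ, rfl⟩

theorem TP_one : (fun _ : X => (1 : ℂ)) ∈ TP X := by
  have h := chi_mem (1 : X →ₜ* Circle)
  have e : (fun x => ((1 : X →ₜ* Circle) x : ℂ)) = fun _ : X => (1 : ℂ) := by
    funext x
    show ((1 : Circle) : ℂ) = 1
    exact Circle.coe_one
  rwa [e] at h

theorem TP_mul {f g : X → ℂ} (hf : f ∈ TP X) (hg : g ∈ TP X) : f * g ∈ TP X := by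
  refine Submodule.span_induction (p := fun f _ => f * g ∈ TP X) ?_ ?_ ?_ ?_ hf
  · rintro _ ⟨χ, rfl⟩
    refine Submodule.span_induction (p := fun g _ => (fun x => (χ x : ℂ)) * g ∈ TP X)
      ?_ ?_ ?_ ?_ hg
    · rintro _ ⟨χ', rfl⟩
      have h := chi_mem (χ * χ')
      have e : (fun x => (χ x : ℂ)) * (fun x => (χ' x : ℂ)) = fun x => ((χ * χ') x : ℂ) := by
        funext x
        show (χ x : ℂ) * (χ' x : ℂ) = ((χ x * χ' x : Circle) : ℂ)
        exact (Circle.coe_mul _ _).symm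
      rw [e]
      exact h
    · rw [mul_zero]
      exact Submodule.zero_mem _
    · intro a b _ _ ha hb
      rw [mul_add]
      exact Submodule.add_mem _ ha hb
    · intro c a _ ha
      rw [mul_smul_comm]
      exact Submodule.smul_mem _ _ ha
  · rw [zero_mul]
    exact Submodule.zero_mem _
  · intro a b _ _ ha hb
    rw [add_mul]
    exact Submodule.add_mem _ ha hb
  · intro c a _ ha
    rw [smul_mul_assoc]
    exact Submodule.smul_mem _ _ ha

theorem TP_conj {f : X → ℂ} (hf : f ∈ TP X) : (fun x => conj (f x)) ∈ TP X := by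
  refine Submodule.span_induction (p := fun f _ => (fun x => conj (f x)) ∈ TP X) ?_ ?_ ?_ ?_ hf
  · rintro _ ⟨χ, rfl⟩
    have h := chi_mem (χ⁻¹)
    have e : (fun x => conj (χ x : ℂ)) = fun x => ((χ⁻¹) x : ℂ) := by
      funext x
      show conj (χ x : ℂ) = (((χ x)⁻¹ : Circle) : ℂ)
      exact (Circle.coe_inv_eq_conj _).symm
    rw [e]
    exact h
  · simp only [Pi.zero_apply, map_zero]
    exact Submodule.zero_mem _
  · intro a b _ _ ha hb
    simp only [Pi.add_apply, map_add]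
    exact Submodule.add_mem _ ha hb
  · intro c a _ ha
    simp only [Pi.smul_apply, smul_eq_mul, map_mul]
    exact Submodule.smul_mem _ (conj c) ha

variable [IsTopologicalGroup X] [CompactSpace X] [T2Space X]

/-- the star subalgebra of trigonometric polynomials -/
def TPA (X : Type u) [CommGroup X] [TopologicalSpace X] : StarSubalgebra ℂ C(X, ℂ) where
  carrier := {f | (f : X → ℂ) ∈ TP X}
  mul_mem' := fun {f g} hf hg => TP_mul hf hg
  add_mem' := fun {f g} hf hg => by
    have h1 : (f : X → ℂ) ∈ TP X := hf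
    have h2 : (g : X → ℂ) ∈ TP X := hg
    exact (TP X).add_mem h1 h2
  algebraMap_mem' := fun c => by
    show (fun _ : X => c) ∈ TP X
    have h := Submodule.smul_mem _ c (TP_one (X := X))
    have e : c • (fun _ : X => (1 : ℂ)) = fun _ => c := by
      funext x
      simp
    rwa [e] at h
  star_mem' := fun {f} hf => TP_conj hf

omit [IsTopologicalGroup X] [CompactSpace X] [T2Space X] in
theorem mem_TPA {f : C(X, ℂ)} : f ∈ TPA X ↔ (f : X → ℂ) ∈ TP X := Iff.rfl

theorem TPA_top : (TPA X).topologicalClosure = ⊤ := by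
  apply ContinuousMap.starSubalgebra_topologicalClosure_eq_top_of_separatesPoints
  intro x y hxy
  obtain ⟨χ, hχ⟩ := Pool.Agent.H71.NU.LC.chars (x * y⁻¹) (fun h => hxy (mul_inv_eq_one.1 h))
  refine ⟨fun x => (χ x : ℂ), ⟨⟨fun x => (χ x : ℂ),
    continuous_subtype_val.comp χ.continuous_toFun⟩, mem_TPA.2 (chi_mem χ), rfl⟩, ?_⟩
  intro h
  apply hχ
  have h1 : χ x = χ y := Circle.ext h
  rw [map_mul, map_inv, h1, mul_inv_cancel]

theorem TP_dense (f : C(X, ℂ)) {ε : ℝ} (hε : 0 < ε) :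
    ∃ g : X → ℂ, g ∈ TP X ∧ Continuous g ∧ ∀ x, ‖f x - g x‖ ≤ ε := by
  have h1 : f ∈ (TPA X).topologicalClosure := by
    rw [TPA_top]
    exact StarSubalgebra.mem_top
  have h2 : f ∈ closure ((TPA X : StarSubalgebra ℂ C(X, ℂ)) : Set C(X, ℂ)) := h1
  obtain ⟨g, hg, hfg⟩ := Metric.mem_closure_iff.1 h2 ε hε
  refine ⟨g, mem_TPA.1 hg, g.continuous, fun x => ?_⟩
  rw [← dist_eq_norm]
  exact (ContinuousMap.dist_apply_le_dist x).trans hfg.le

theorem BM_of_TP [MeasurableSpace X] [BorelSpace X] {f : X → ℂ} (hf : f ∈ TP X) : BM f := by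
  refine Submodule.span_induction (p := fun f _ => BM f) ?_ ?_ ?_ ?_ hf
  · rintro _ ⟨χ, rfl⟩
    exact ⟨(continuous_subtype_val.comp χ.continuous_toFun).measurable, 1,
      fun x => (Circle.norm_coe _).le⟩
  · exact ⟨measurable_const, 0, fun x => by simp⟩
  · rintro g₁ g₂ _ _ ⟨m₁, C₁, b₁⟩ ⟨m₂, C₂, b₂⟩
    exact ⟨m₁.add m₂, C₁ + C₂, fun x => (norm_add_le _ _).trans (add_le_add (b₁ x) (b₂ x))⟩
  · rintro c g₁ _ ⟨m₁, C₁, b₁⟩
    refine ⟨m₁.const_smul c, ‖c‖ * C₁, fun x => ?_⟩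
    rw [Pi.smul_apply, norm_smul]
    exact mul_le_mul_of_nonneg_left (b₁ x) (norm_nonneg _)

theorem TP_dense_L1 [MeasurableSpace X] [BorelSpace X] {μ : Measure X} [μ.IsHaarMeasure]
    [IsProbabilityMeasure μ] {F : X → ℂ} (hF : BM F) {ε : ℝ} (hε : 0 < ε) :
    ∃ g ∈ TP X, ∫ x, ‖F x - g x‖ ∂μ ≤ ε := by
  obtain ⟨hm, C, hC⟩ := hF
  have hint : Integrable F μ := Integrable.of_bound hm.aestronglyMeasurable C
    (Eventually.of_forall hC)
  have hreg : μ.Regular := inferInstance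
  obtain ⟨g, hg, hgi⟩ := hint.exists_boundedContinuous_integral_sub_le (half_pos hε)
  obtain ⟨p, hp, hpc, hgp⟩ := TP_dense g.toContinuousMap (half_pos hε)
  refine ⟨p, hp, ?_⟩
  have hpi : Integrable p μ := by
    obtain ⟨h1, C', h2⟩ := BM_of_TP hp
    exact Integrable.of_bound h1.aestronglyMeasurable C' (Eventually.of_forall h2)
  have h3 : ∫ x, ‖g x - p x‖ ∂μ ≤ ε / 2 := by
    calc ∫ x, ‖g x - p x‖ ∂μ ≤ ∫ _x, ε / 2 ∂μ := by
          apply integral_mono (hgi.sub hpi).norm (integrable_const _)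
          intro x
          exact hgp x
      _ = ε / 2 := by simp
  calc ∫ x, ‖F x - p x‖ ∂μ ≤ ∫ x, (‖F x - g x‖ + ‖g x - p x‖) ∂μ := by
        apply integral_mono (hint.sub hpi).norm ((hint.sub hgi).norm.add (hgi.sub hpi).norm)
        intro x
        show ‖F x - p x‖ ≤ ‖F x - g x‖ + ‖g x - p x‖
        have e : F x - p x = (F x - g x) + (g x - p x) := by ring
        rw [e]
        exact norm_add_le _ _
    _ = ∫ x, ‖F x - g x‖ ∂μ + ∫ x, ‖g x - p x‖ ∂μ :=
        integral_add (hint.sub hgi).norm (hgi.sub hpi).norm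
    _ ≤ ε / 2 + ε / 2 := add_le_add hg h3
    _ = ε := add_halves ε

end tp

end Pool.Agent.H71.NU
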