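import Pool.Agent.H71.NU.Alg
import Pool.Agent.H71.NU.Dens
import Pool.Agent.H71.WW.One

set_option autoImplicit false
set_option linter.unusedSectionVars false

/-!
# Products of characters
-/

namespace Pool.Agent.H71.NU

open Filter Topology MeasureTheory
open Pool.Agent.H71.WW (av avr av_of_sides BM PP PP_mul PP_inv PP_one cv wiener_wintner df av1)

noncomputable section

/-- polynomial phases as a group -/
def PPG (K : ℕ) : Subgroup (ℕ → Circle) where
  carrier := PP K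
  mul_mem' := PP_mul
  one_mem' := PP_one K
  inv_mem' := PP_inv

theorem pp_pos {q : ℤ → Circle} {K : ℕ} (h : (D 1)^[K] q = 1) :
    (fun n : ℕ => q n) ∈ PPG K := by
  have key : ∀ (k : ℕ) (q : ℤ → Circle), df^[k] (fun n : ℕ => q n) =
      fun n : ℕ => (D 1)^[k] q n := by
    intro k
    induction k with
    | zero => exact fun q => rfl
    | succ k ih =>
      intro q
      rw [Function.iterate_succ_apply, Function.iterate_succ_apply]
      have e : df (fun n : ℕ => q n) = fun n : ℕ => D 1 q n := by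
        funext n
        simp only [df, D]
        push_cast
        rfl
      rw [e, ih]
  show df^[K] (fun n : ℕ => q n) = 1
  rw [key, h]
  rfl

theorem pp_neg {q : ℤ → Circle} {K : ℕ} (h : (D (-1))^[K] q = 1) :
    (fun n : ℕ => q (-n)) ∈ PPG K := by
  have key : ∀ (k : ℕ) (q : ℤ → Circle), df^[k] (fun n : ℕ => q (-n)) =
      fun n : ℕ => (D (-1))^[k] q (-n) := by
    intro k
    induction k with
    | zero => exact fun q => rfl
    | succ k ih =>
      intro q
      rw [Function.iterate_succ_apply, Function.iterate_succ_apply]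
      have e : df (fun n : ℕ => q (-n)) = fun n : ℕ => D (-1) q (-n) := by
        funext n
        simp only [df, D]
        push_cast
        rw [neg_add]
      rw [e, ih]
  show df^[K] (fun n : ℕ => q (-n)) = 1
  rw [key, h]
  rfl

variable {X Y : Type} [CommGroup X]

theorem base_inv {k : Equiv.Perm (Y × X)} {α : MulAut X} (hk : Lin k α) {z w : Y × X}
    (hw : w.1 = (k z).1) : (k⁻¹ w).1 = z.1 := by
  obtain ⟨s, w', hs⟩ := hk
  apply s.injective
  have h1 : k (k⁻¹ w) = w := app_inv_self k w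
  have h2 : (k (k⁻¹ w)).1 = s (k⁻¹ w).1 := by
    have := hs (k⁻¹ w).1 (k⁻¹ w).2
    rw [Prod.mk.eta] at this
    rw [this]
  have h3 : (k z).1 = s z.1 := by
    have := hs z.1 z.2
    rw [Prod.mk.eta] at this
    rw [this]
  rw [← h2, h1, hw, h3]

variable [TopologicalSpace X] [IsTopologicalGroup X] [CompactSpace X] [T2Space X]
  [MeasurableSpace X] [BorelSpace X] {μ : Measure X} [IsProbabilityMeasure μ]
  [MeasurableSpace Y] {ν : Measure Y} [IsProbabilityMeasure ν]
  {S : Subgroup (Equiv.Perm (Y × X))} {c D : ℕ}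

/-- the sequences -/
structure Fam (S : Subgroup (Equiv.Perm (Y × X))) (ν : Measure Y) (μ : Measure X) (c D : ℕ)
    (hD : 1 ≤ D) {m : ℕ} (t : Equiv.Perm (Y × X)) (s : Fin m → Equiv.Perm (Y × X))
    (g : Fin m → ℤ → Equiv.Perm (Y × X)) : Prop where
  nl : Nl S c
  mp : ∀ g ∈ S, MeasurePreserving g (ν.prod μ) (ν.prod μ)
  ht : t ∈ S
  hs : ∀ j, s j ∈ S
  hg : ∀ j, g j ∈ PG S D hD
  hb : ∀ j n z, (g j n z).1 = ((s j * t ^ n) z).1

variable {hD : 1 ≤ D} {m : ℕ} {t : Equiv.Perm (Y × X)} {s : Fin m → Equiv.Perm (Y × X)}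
  {g : Fin m → ℤ → Equiv.Perm (Y × X)}

/-- the relation between two points of a fibre -/
theorem Fam.rel (H : Fam S ν μ c D hD t s g) (χ : Fin m → X →ₜ* Circle) (F : Fin m → Y → ℂ)
    (z z' : Y × X) (hz : z.1 = z'.1) : ∃ q : ℤ → Circle,
      ((fun n : ℕ => q n) ∈ PP (2 * c * D + 1)) ∧ ((fun n : ℕ => q (-n)) ∈ PP (2 * c * D + 1)) ∧
      ∀ n : ℤ, ∏ j, F j (g j n z).1 * (χ j (g j n z).2 : ℂ) =
        (q n : ℂ) * ∏ j, F j (s j ((t ^ n) z')).1 * (χ j (s j ((t ^ n) z')).2 : ℂ) := by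
  obtain ⟨α, hα⟩ := H.nl.lin t H.ht
  choose β hβ using fun j => H.nl.lin (s j) (H.hs j)
  have hY : Nonempty Y := ⟨z.1⟩
  set h : Fin m → ℤ → Equiv.Perm (Y × X) := fun j n => (s j * t ^ n)⁻¹ * g j n with hh
  have hk : ∀ j (n : ℤ), Lin (s j * t ^ n) (β j * α ^ n) := fun j n => (hβ j).mul (hα.zpow n)
  have hh0 : ∀ j n, h j n ∈ G0 X Y := fun j n w => by
    rw [hh]
    exact base_inv (hk j n) (H.hb j n w)
  have hhP : ∀ j, h j ∈ PG S D hD := fun j => by
    have h1 : (fun n : ℤ => s j * t ^ n) ∈ PG S D hD :=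
      mul_mem (const_mem hD (H.hs j)) (zpow_mem' hD H.ht)
    exact mul_mem (inv_mem h1) (H.hg j)
  let θ : Fin m → X →* Circle := fun j => ((χ j : X →ₜ* Circle) : X →* Circle).comp (β j : X →* X)
  have hθ : ∀ j a, θ j a = χ j (β j a) := fun j a => rfl
  set q : ℤ → Circle := fun n => ∏ j, ((θ j ((α ^ n) z'.2))⁻¹ * θ j ((α ^ n) (h j n z).2)) with hq
  have hq1 : ∀ r : ℤ, ∀ j, (NU.D r)^[2 * c * D + 1] (fun n : ℤ => θ j ((α ^ n) z'.2)) = 1 :=
    fun r j => phase H.nl hD hY H.ht hα (θ j) (g := 1) (one_mem _) (fun _ => one_mem _) z' r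
  have hq2 : ∀ r : ℤ, ∀ j,
      (NU.D r)^[2 * c * D + 1] (fun n : ℤ => θ j ((α ^ n) (h j n z).2)) = 1 :=
    fun r j => phase H.nl hD hY H.ht hα (θ j) (hhP j) (hh0 j) z r
  refine ⟨q, ?_, ?_, fun n => ?_⟩
  · have e : (fun n : ℕ => q n) = ∏ j, ((fun n : ℕ => θ j ((α ^ (n : ℤ)) z'.2))⁻¹ *
        fun n : ℕ => θ j ((α ^ (n : ℤ)) (h j n z).2)) := by
      funext n
      rw [Finset.prod_apply]
      rfl
    rw [e]
    exact Subgroup.prod_mem (PPG _) fun j _ => mul_mem (inv_mem (pp_pos (hq1 1 j)))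
      (pp_pos (hq2 1 j))
  · have e : (fun n : ℕ => q (-n)) = ∏ j, ((fun n : ℕ => θ j ((α ^ (-(n : ℤ))) z'.2))⁻¹ *
        fun n : ℕ => θ j ((α ^ (-(n : ℤ))) (h j (-n) z).2)) := by
      funext n
      rw [Finset.prod_apply]
      rfl
    rw [e]
    exact Subgroup.prod_mem (PPG _) fun j _ => mul_mem (inv_mem (pp_neg (hq1 (-1) j)))
      (pp_neg (hq2 (-1) j))
  · have e1 : ∀ j, g j n z = (s j * t ^ n) (z'.1, z'.2 * (z'.2⁻¹ * (h j n z).2)) := by
      intro j
      have h1 : (h j n z).1 = z'.1 := (hh0 j n z).trans hz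
      rw [mul_inv_cancel_left, ← h1, Prod.mk.eta]
      show _ = (s j * t ^ n) (((s j * t ^ n)⁻¹ * g j n) z)
      rw [← Equiv.Perm.mul_apply, mul_inv_cancel_left]
    have e2 : ∀ j, F j (g j n z).1 * (χ j (g j n z).2 : ℂ) =
        (((θ j ((α ^ n) z'.2))⁻¹ * θ j ((α ^ n) (h j n z).2) : Circle) : ℂ) *
        (F j (s j ((t ^ n) z')).1 * (χ j (s j ((t ^ n) z')).2 : ℂ)) := by
      intro j
      rw [e1 j, (hk j n).shift z']
      have h2 : χ j (((s j * t ^ n) z').2 * ((β j * α ^ n) (z'.2⁻¹ * (h j n z).2))) =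
          χ j (s j ((t ^ n) z')).2 * ((θ j ((α ^ n) z'.2))⁻¹ * θ j ((α ^ n) (h j n z).2)) := by
        rw [map_mul, Equiv.Perm.mul_apply, MulAut.mul_apply, map_mul, map_inv, map_mul, map_inv,
          map_mul, map_inv]
        rfl
      simp only
      rw [h2, Circle.coe_mul, Equiv.Perm.mul_apply]
      ring
    simp_rw [e2]
    rw [Finset.prod_mul_distrib]
    congr 1
    rw [hq]
    simp only
    exact (map_prod Circle.coeHom (fun j => (θ j ((α ^ n) z'.2))⁻¹ *
      θ j ((α ^ n) (h j n z).2)) Finset.univ).symm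

/-- **Products of characters.** -/
theorem Fam.chars (H : Fam S ν μ c D hD t s g) (χ : Fin m → X →ₜ* Circle) {F : Fin m → Y → ℂ}
    (hF : ∀ j, BM (F j)) : ∀ᶠ z in comap Prod.fst (ae ν), ∃ L : ℂ,
      Tendsto (fun N => av N fun n => ∏ j, F j (g j n z).1 * (χ j (g j n z).2 : ℂ)) atTop
        (𝓝 L) := by
  set Φ : Y × X → ℂ := fun w => ∏ j, F j (s j w).1 * (χ j (s j w).2 : ℂ) with hΦ
  choose hFm C hC using hF
  have hχm : ∀ j, Measurable fun x => (χ j x : ℂ) := fun j =>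
    (Continuous.measurable (by
      have := (χ j).continuous_toFun
      exact WW.coe_cont.comp this))
  have hΦm : Measurable Φ := by
    refine Finset.measurable_fun_prod _ fun j _ => ?_
    have h1 := (H.mp (s j) (H.hs j)).measurable
    exact ((hFm j).comp (measurable_fst.comp h1)).mul ((hχm j).comp (measurable_snd.comp h1))
  have hΦb : ∀ w, ‖Φ w‖ ≤ ∏ j, |C j| := by
    intro w
    rw [hΦ]
    simp only
    rw [norm_prod]
    refine Finset.prod_le_prod (fun j _ => norm_nonneg _) fun j _ => ?_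
    rw [norm_mul, Circle.norm_coe, mul_one]
    exact (hC j _).trans (le_abs_self _)
  have w1 := wiener_wintner (H.mp t H.ht) hΦm hΦb
  have w2 := wiener_wintner (H.mp t⁻¹ (inv_mem H.ht)) hΦm hΦb
  have w3 := Measure.ae_ae_of_ae_prod (w1.and w2)
  rw [Filter.eventually_comap]
  filter_upwards [w3] with y hy z hz
  obtain ⟨a, h1, h2⟩ := hy.exists
  obtain ⟨q, hq1, hq2, hq⟩ := H.rel χ F z (y, a) hz
  obtain ⟨L1, hL1⟩ := h1 _ _ hq1
  obtain ⟨L2, hL2⟩ := h2 _ _ hq2
  refine ⟨(L1 + L2) / 2, av_of_sides (C := ‖∏ j, F j (g j 0 z).1 * (χ j (g j 0 z).2 : ℂ)‖)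
    le_rfl (hL1.congr fun N => ?_) (hL2.congr fun N => ?_)⟩
  · unfold av1
    congr 1
    refine Finset.sum_congr rfl fun n _ => ?_
    rw [hq n, zpow_natCast, ← Equiv.Perm.iterate_eq_pow]
  · unfold av1
    congr 1
    refine Finset.sum_congr rfl fun n _ => ?_
    rw [hq (-n), zpow_neg, zpow_natCast, ← inv_pow, ← Equiv.Perm.iterate_eq_pow]

end

end Pool.Agent.H71.NU
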