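import Mathlib

set_option autoImplicit false

namespace Pool.Agent.H71.NU

open scoped commutatorElement

theorem lcs_comm_rot {H : Type} [Group H] (N H₁ H₂ H₃ : Subgroup H) [N.Normal]
    (h1 : ⁅⁅H₂, H₃⁆, H₁⁆ ≤ N) (h2 : ⁅⁅H₃, H₁⁆, H₂⁆ ≤ N) : ⁅⁅H₁, H₂⁆, H₃⁆ ≤ N := by
  have key : ∀ K : Subgroup H, K ≤ N ↔ K.map (QuotientGroup.mk' N) = ⊥ := by
    intro K
    rw [Subgroup.map_eq_bot_iff, QuotientGroup.ker_mk']
  rw [key, Subgroup.map_commutator, Subgroup.map_commutator] at h1 h2 ⊢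
  exact Subgroup.commutator_commutator_eq_bot_of_rotate h1 h2

theorem lcs_comm_top {H : Type} [Group H] (b : ℕ) : ∀ a : ℕ,
    ⁅(⊤ : Subgroup H).lowerCentralSeries a, (⊤ : Subgroup H).lowerCentralSeries b⁆ ≤
      (⊤ : Subgroup H).lowerCentralSeries (a + b + 1) := by
  induction b with
  | zero => intro a; exact le_of_eq rfl
  | succ b ih =>
    intro a
    rw [Subgroup.commutator_comm, Subgroup.lowerCentralSeries_succ]
    refine lcs_comm_rot _ _ _ _ ?_ ?_
    · rw [Subgroup.commutator_comm (⊤ : Subgroup H), ← Subgroup.lowerCentralSeries_succ]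
      have := ih (a + 1)
      rwa [show a + 1 + b + 1 = a + (b + 1) + 1 by omega] at this
    · rw [show a + (b + 1) + 1 = (a + b + 1) + 1 by omega, Subgroup.lowerCentralSeries_succ]
      exact Subgroup.commutator_mono (ih a) le_rfl

/-- `[γ_{a+1}(S), γ_{b+1}(S)] ≤ γ_{a+b+2}(S)` -/
theorem lcs_comm {G : Type} [Group G] (S : Subgroup G) (a b : ℕ) :
    ⁅S.lowerCentralSeries a, S.lowerCentralSeries b⁆ ≤ S.lowerCentralSeries (a + b + 1) := by
  rw [← Subgroup.top_subtype_lowerCentralSeries S a, ← Subgroup.top_subtype_lowerCentralSeries S b,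
    ← Subgroup.top_subtype_lowerCentralSeries S (a + b + 1), ← Subgroup.map_commutator]
  exact Subgroup.map_mono (lcs_comm_top b a)

end Pool.Agent.H71.NU
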