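import Pool.Agent.H71.NU.Pol
import Pool.Agent.H71.NU.Lcs

set_option autoImplicit false

/-!
# Filtrations of semidirect products, and orbits of polynomial sequences
-/

namespace Pool.Agent.H71.NU

open scoped commutatorElement

section sd

variable {N G : Type} [CommGroup N] [Group G] (φ : G →* MulAut N)
  {M : ℕ → Subgroup N} {Gf : ℕ → Subgroup G}

/-- the conditions -/
structure Ok (φ : G →* MulAut N) (M : ℕ → Subgroup N) (Gf : ℕ → Subgroup G) : Prop where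
  anM : ∀ i, M (i + 1) ≤ M i
  anG : ∀ i, Gf (i + 1) ≤ Gf i
  cG : ∀ i j, ⁅Gf i, Gf j⁆ ≤ Gf (i + j)
  act : ∀ i j, ∀ g ∈ Gf j, ∀ v ∈ M i, φ g v * v⁻¹ ∈ M (i + j)

variable {φ}

theorem Ok.anM' (h : Ok φ M Gf) {i j : ℕ} (hij : i ≤ j) : M j ≤ M i := by
  induction j, hij using Nat.le_induction with
  | base => exact le_rfl
  | succ j _ ih => exact (h.anM j).trans ih

theorem Ok.anG' (h : Ok φ M Gf) {i j : ℕ} (hij : i ≤ j) : Gf j ≤ Gf i := by
  induction j, hij using Nat.le_induction with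
  | base => exact le_rfl
  | succ j _ ih => exact (h.anG j).trans ih

theorem Ok.stab (h : Ok φ M Gf) {i j : ℕ} {g : G} (hg : g ∈ Gf j) {v : N} (hv : v ∈ M i) :
    φ g v ∈ M i := by
  have h1 := mul_mem (h.anM' (Nat.le_add_right i j) (h.act i j g hg v hv)) hv
  rwa [inv_mul_cancel_right] at h1

/-- the filtration of the semidirect product -/
def Qf (h : Ok φ M Gf) (i : ℕ) : Subgroup (N ⋊[φ] G) where
  carrier := {q | q.left ∈ M i ∧ q.right ∈ Gf i}
  mul_mem' := by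
    rintro a b ⟨h1, h2⟩ ⟨h3, h4⟩
    refine ⟨?_, ?_⟩
    · rw [SemidirectProduct.mul_left]
      exact mul_mem h1 (h.stab h2 h3)
    · rw [SemidirectProduct.mul_right]
      exact mul_mem h2 h4
  one_mem' := ⟨one_mem _, one_mem _⟩
  inv_mem' := by
    rintro a ⟨h1, h2⟩
    refine ⟨?_, ?_⟩
    · rw [SemidirectProduct.inv_left]
      exact h.stab (inv_mem h2) (inv_mem h1)
    · rw [SemidirectProduct.inv_right]
      exact inv_mem h2

theorem mem_Qf (h : Ok φ M Gf) {i : ℕ} {q : N ⋊[φ] G} :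
    q ∈ Qf h i ↔ q.left ∈ M i ∧ q.right ∈ Gf i := Iff.rfl

theorem Qf_anti (h : Ok φ M Gf) (i : ℕ) : Qf h (i + 1) ≤ Qf h i :=
  fun _ hq => ⟨h.anM i hq.1, h.anG i hq.2⟩

theorem Qf_comm (h : Ok φ M Gf) (i j : ℕ) : ⁅Qf h i, Qf h j⁆ ≤ Qf h (i + j) := by
  rw [Subgroup.commutator_le]
  rintro ⟨v, g⟩ ⟨hv, hg⟩ ⟨v', g'⟩ ⟨hv', hg'⟩
  simp only at hv hg hv' hg'
  have hgg : ⁅g, g'⁆ ∈ Gf (i + j) := h.cG i j (Subgroup.commutator_mem_commutator hg hg')
  have hk : g * g' * g⁻¹ ∈ Gf j := by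
    have h1 := mul_mem (h.anG' (Nat.le_add_left j i) hgg) hg'
    rw [commutatorElement_def, inv_mul_cancel_right] at h1
    exact h1
  refine ⟨?_, ?_⟩
  · have e : ((⟨v, g⟩ : N ⋊[φ] G) * ⟨v', g'⟩ * (⟨v, g⟩ : N ⋊[φ] G)⁻¹ *
        (⟨v', g'⟩ : N ⋊[φ] G)⁻¹).left =
        (φ (g * g' * g⁻¹) v * v⁻¹)⁻¹ * (φ g v' * v'⁻¹) * (φ ⁅g, g'⁆ v' * v'⁻¹)⁻¹ := by
      have e1 : ((⟨v, g⟩ : N ⋊[φ] G) * ⟨v', g'⟩ * (⟨v, g⟩ : N ⋊[φ] G)⁻¹ *
        (⟨v', g'⟩ : N ⋊[φ] G)⁻¹).left = v * φ g v' * φ (g * g') (φ g⁻¹ v⁻¹) *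
          φ (g * g' * g⁻¹) (φ g'⁻¹ v'⁻¹) := rfl
      have e2 : ∀ (a b : G) (w : N), φ a (φ b w) = φ (a * b) w := fun a b w => by
        rw [map_mul]
        rfl
      rw [e1, e2, e2, commutatorElement_def, map_inv, map_inv]
      have : ∀ a b c d e : N, a * b * c⁻¹ * d⁻¹ = (c * a⁻¹)⁻¹ * (b * e⁻¹) * (d * e⁻¹)⁻¹ := by
        intro a b c d e
        simp only [mul_inv_rev, inv_inv]
        have h1 : a * c⁻¹ * (b * e⁻¹) * (e * d⁻¹) = a * c⁻¹ * b * (e⁻¹ * e) * d⁻¹ := by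
          simp only [mul_assoc]
        rw [h1, inv_mul_cancel, mul_one, mul_right_comm a b c⁻¹]
      exact this _ _ _ _ _
    rw [commutatorElement_def]
    rw [e]
    refine mul_mem (mul_mem (inv_mem (h.act i j _ hk v hv)) ?_) (inv_mem ?_)
    · rw [add_comm]
      exact h.act j i g hg v' hv'
    · have := h.act j (i + j) _ hgg v' hv'
      exact h.anM' (Nat.le_add_left _ _) this
  · rw [commutatorElement_def]
    simp only [SemidirectProduct.mul_right, SemidirectProduct.inv_right]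
    exact hgg

theorem pol_inr (h : Ok φ M Gf) {g : ℤ → G} {k s : ℕ} (hg : g ∈ Pol ℤ Gf k s) :
    (fun n => (SemidirectProduct.inr (g n) : N ⋊[φ] G)) ∈ Pol ℤ (Qf h) k s := by
  induction k generalizing s g with
  | zero => exact fun n => ⟨one_mem _, hg n⟩
  | succ k ih =>
    refine ⟨fun n => ⟨one_mem _, hg.1 n⟩, fun r => ?_⟩
    have h1 := ih (hg.2 r)
    have e : D r (fun n => (SemidirectProduct.inr (g n) : N ⋊[φ] G)) =
        fun n => (SemidirectProduct.inr (D r g n) : N ⋊[φ] G) := by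
      funext n
      simp only [D, map_mul, map_inv]
    rw [e]
    exact h1

/-- **Orbits of polynomial sequences**: if `v n` is polynomial in `N` and `g n` in `G` then so is
`φ (g n)⁻¹ (v n)`. -/
theorem pol_orbit (h : Ok φ M Gf) {g : ℤ → G} (hg : g ∈ PolS ℤ Gf 0) {v : ℤ → N}
    (hv : (fun n => (SemidirectProduct.inl (v n) : N ⋊[φ] G)) ∈ PolS ℤ (Qf h) 0) :
    (fun n => (SemidirectProduct.inl (φ (g n)⁻¹ (v n)) : N ⋊[φ] G)) ∈ PolS ℤ (Qf h) 0 := by
  have h1 : (fun n => (SemidirectProduct.inr (g n) : N ⋊[φ] G)) ∈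
      PolG ℤ (Qf h) (Qf_anti h) (Qf_comm h) 0 := fun k => pol_inr h (hg k)
  have h2 : (fun n => (SemidirectProduct.inl (v n) : N ⋊[φ] G)) ∈
      PolG ℤ (Qf h) (Qf_anti h) (Qf_comm h) 0 := hv
  have h3 := mul_mem (mul_mem (inv_mem h1) h2) h1
  have e : (fun n => (SemidirectProduct.inl (φ (g n)⁻¹ (v n)) : N ⋊[φ] G)) =
      (fun n => (SemidirectProduct.inr (g n) : N ⋊[φ] G))⁻¹ *
      (fun n => (SemidirectProduct.inl (v n) : N ⋊[φ] G)) *
      (fun n => (SemidirectProduct.inr (g n) : N ⋊[φ] G)) := by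
    funext n
    have h4 := SemidirectProduct.inl_aut (φ := φ) (g n)⁻¹ (v n)
    rw [inv_inv] at h4
    show _ = (SemidirectProduct.inr (g n))⁻¹ * SemidirectProduct.inl (v n) *
      SemidirectProduct.inr (g n)
    rw [← map_inv]
    exact h4
  rw [e]
  exact h3

/-- differences of sequences in `N` -/
theorem pol_inl_D (h : Ok φ M Gf) {v : ℤ → N} {k s : ℕ}
    (hv : (fun n => (SemidirectProduct.inl (v n) : N ⋊[φ] G)) ∈ Pol ℤ (Qf h) (k + 1) s) (r : ℤ) :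
    (fun n => (SemidirectProduct.inl (D r v n) : N ⋊[φ] G)) ∈ Pol ℤ (Qf h) k (s + 1) := by
  have h1 := hv.2 r
  have e : (fun n => (SemidirectProduct.inl (D r v n) : N ⋊[φ] G)) =
      D r (fun n => (SemidirectProduct.inl (v n) : N ⋊[φ] G)) := by
    funext n
    simp only [D, map_mul, map_inv]
  rw [e]
  exact h1

theorem pol_inl_it (h : Ok φ M Gf) {v : ℤ → N}
    (hv : (fun n => (SemidirectProduct.inl (v n) : N ⋊[φ] G)) ∈ PolS ℤ (Qf h) 0) (r : ℤ)
    (k : ℕ) : ∀ n, (D r)^[k] v n ∈ M k := by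
  have key : ∀ (k s : ℕ) (v : ℤ → N),
      (∀ l, (fun n => (SemidirectProduct.inl (v n) : N ⋊[φ] G)) ∈ Pol ℤ (Qf h) l s) →
      ∀ n, (D r)^[k] v n ∈ M (s + k) := by
    intro k
    induction k with
    | zero => exact fun s v hv n => (hv 0 n).1
    | succ k ih =>
      intro s v hv n
      rw [Function.iterate_succ_apply, show s + (k + 1) = s + 1 + k by ring]
      exact ih (s + 1) (D r v) (fun l => pol_inl_D h (hv (l + 1)) r) n
  intro n
  have := key k 0 v hv n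
  rwa [zero_add] at this

end sd

end Pool.Agent.H71.NU
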